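import Pool.Agent.H47.Vin.L

/-!
# Dual maximal inequality for positive kernels (Schur test, dual Doob)
-/

open scoped BigOperators

noncomputable section

namespace Pool.Agent.H47.Vin

/-- Schur test -/
theorem schur (s : Finset ℕ) (w : ℕ → ℕ → ℝ) (hw : ∀ i j, 0 ≤ w i j) (c : ℝ)
    (hr : ∀ i ∈ s, ∑ j ∈ s, w i j ≤ c) (hc : ∀ j ∈ s, ∑ i ∈ s, w i j ≤ c) (a : ℕ → ℝ) :
    ∑ i ∈ s, ∑ j ∈ s, w i j * (a i * a j) ≤ c * ∑ i ∈ s, a i ^ 2 := by
  have h1 : ∑ i ∈ s, ∑ j ∈ s, w i j * (a i * a j) ≤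
      ∑ i ∈ s, ∑ j ∈ s, (w i j * (a i ^ 2 / 2) + w i j * (a j ^ 2 / 2)) := by
    refine Finset.sum_le_sum fun i _ => Finset.sum_le_sum fun j _ => ?_
    rw [← mul_add]
    exact mul_le_mul_of_nonneg_left (by nlinarith [sq_nonneg (a i - a j)]) (hw i j)
  have h2 : ∑ i ∈ s, ∑ j ∈ s, w i j * (a i ^ 2 / 2) ≤ c * (∑ i ∈ s, a i ^ 2) / 2 := by
    rw [mul_div_assoc, Finset.sum_div, Finset.mul_sum]
    refine Finset.sum_le_sum fun i hi => ?_
    rw [← Finset.sum_mul]
    exact mul_le_mul_of_nonneg_right (hr i hi) (by positivity)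
  have h3 : ∑ i ∈ s, ∑ j ∈ s, w i j * (a j ^ 2 / 2) ≤ c * (∑ i ∈ s, a i ^ 2) / 2 := by
    rw [Finset.sum_comm, mul_div_assoc, Finset.sum_div, Finset.mul_sum]
    refine Finset.sum_le_sum fun j hj => ?_
    rw [← Finset.sum_mul]
    exact mul_le_mul_of_nonneg_right (hc j hj) (by positivity)
  calc _ ≤ _ := h1
    _ = ∑ i ∈ s, ∑ j ∈ s, w i j * (a i ^ 2 / 2) + ∑ i ∈ s, ∑ j ∈ s, w i j * (a j ^ 2 / 2) := by
        rw [← Finset.sum_add_distrib]
        exact Finset.sum_congr rfl fun i _ => Finset.sum_add_distrib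
    _ ≤ _ := by linarith

/-- the geometric distance weight -/
def gw (i j : ℕ) : ℝ := (1 / 2 : ℝ) ^ (i - j + (j - i))

lemma gw_comm (i j : ℕ) : gw i j = gw j i := by unfold gw; rw [add_comm]

lemma gw_nonneg (i j : ℕ) : 0 ≤ gw i j := by unfold gw; positivity

lemma sum_gw_le (n i : ℕ) : ∑ j ∈ Finset.range n, gw i j ≤ 3 := by
  have h1 : ∀ m, ∑ j ∈ Finset.range m, (1 / 2 : ℝ) ^ j ≤ 2 := by
    intro m
    rw [geom_sum_eq (by norm_num), div_le_iff_of_neg (by norm_num)]
    have : (0 : ℝ) ≤ (1 / 2) ^ m := by positivity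
    linarith
  have h2 : ∑ j ∈ Finset.range n, gw i j ≤
      ∑ j ∈ Finset.range i, gw i j + ∑ j ∈ Finset.range n, gw i (i + j) := by
    rcases le_total n i with h | h
    · have ha : ∑ j ∈ Finset.range n, gw i j ≤ ∑ j ∈ Finset.range i, gw i j :=
        Finset.sum_le_sum_of_subset_of_nonneg (Finset.range_mono h) fun _ _ _ => gw_nonneg _ _
      have hb : 0 ≤ ∑ j ∈ Finset.range n, gw i (i + j) :=
        Finset.sum_nonneg fun _ _ => gw_nonneg _ _
      linarith
    · obtain ⟨k, rfl⟩ := Nat.exists_eq_add_of_le h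
      rw [Finset.sum_range_add]
      have : ∑ j ∈ Finset.range k, gw i (i + j) ≤ ∑ j ∈ Finset.range (i + k), gw i (i + j) :=
        Finset.sum_le_sum_of_subset_of_nonneg (Finset.range_mono (by omega))
          fun _ _ _ => gw_nonneg _ _
      linarith
  have h3 : ∑ j ∈ Finset.range n, gw i (i + j) ≤ 2 := by
    refine le_trans (le_of_eq ?_) (h1 n)
    refine Finset.sum_congr rfl fun j _ => ?_
    unfold gw; congr 1; omega
  have h4 : ∑ j ∈ Finset.range i, gw i j ≤ 1 := by
    rw [← Finset.sum_range_reflect]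
    have : ∑ j ∈ Finset.range i, gw i (i - 1 - j) = (1 / 2) * ∑ j ∈ Finset.range i, (1 / 2 : ℝ) ^ j := by
      rw [Finset.mul_sum]
      refine Finset.sum_congr rfl fun j hj => ?_
      have := Finset.mem_range.1 hj
      unfold gw
      rw [← pow_succ']
      congr 1; omega
    rw [this]
    linarith [h1 i]
  linarith

lemma sum_gw_le' (s : Finset ℕ) (i : ℕ) : ∑ j ∈ s, gw i j ≤ 3 := by
  refine le_trans ?_ (sum_gw_le (s.sup id + 1) i)
  refine Finset.sum_le_sum_of_subset_of_nonneg (fun j hj => ?_) fun _ _ _ => gw_nonneg _ _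
  rw [Finset.mem_range, Nat.lt_succ_iff]
  exact Finset.le_sup (f := id) hj

theorem n2_le_n2_sum {s : Finset ℕ} {psi : ℕ → W} (hpsi : ∀ j, Pos (psi j)) {i : ℕ} (hi : i ∈ s) :
    n2 (psi i) ≤ n2 (∑ j ∈ s, psi j) := by
  refine n2_le_of_dom (hpsi i) ?_
  unfold Dom
  rw [← Finset.add_sum_erase _ _ hi, add_sub_cancel_left]
  exact Pos.sum fun j _ => hpsi j

/-- the sum of the squares is dominated by the square of the sum (positive elements) -/
theorem sum_n2_sq_le {s : Finset ℕ} {psi : ℕ → W} (hpsi : ∀ j, Pos (psi j)) :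
    ∑ i ∈ s, n2 (psi i) ^ 2 ≤ n2 (∑ j ∈ s, psi j) ^ 2 := by
  rw [← ip_self, ip_sum_left]
  refine Finset.sum_le_sum fun i hi => ?_
  rw [ip_sum_right, ← ip_self]
  exact Finset.single_le_sum (f := fun j => ip (psi i) (psi j))
    (fun j _ => ip_nonneg (hpsi i) (hpsi j)) hi

/-- dual Doob, abstract form -/
theorem dd_abs (n : ℕ) (F : ℕ → W) (hP : ∀ j, Pos (F j)) (hN : ∀ j, ‖F j‖ ≤ 1)
    (hA : ∀ j, adj (F j) = F j)
    (hFF : ∀ i j, i < j → ‖(1 - F i) * F j‖ ≤ 5 * (1 / 2 : ℝ) ^ (j - i))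
    (psi : ℕ → W) (hpsi : ∀ j, Pos (psi j)) :
    n2 (∑ j ∈ Finset.range n, F j * psi j) ≤ 5 * n2 (∑ j ∈ Finset.range n, psi j) := by
  set S := ∑ j ∈ Finset.range n, psi j with hS
  set G := ∑ j ∈ Finset.range n, F j * psi j with hG
  have hFpsi : ∀ j, Pos (F j * psi j) := fun j => (hP j).mul (hpsi j)
  have key : ∀ i j, i < j → ip (F i * psi i) (F j * psi j) ≤
      ip (psi i) (F j * psi j) + 5 * gw i j * (n2 (psi i) * n2 (psi j)) := by
    intro i j hij
    have h1 : ip (F i * psi i) (F j * psi j) =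
        ip (psi i) (F j * psi j) - ip (((1 - F i) * F j) * psi j) (psi i) := by
      rw [ip_mul_left, hA i, ip_comm (((1 - F i) * F j) * psi j),
        show F i * (F j * psi j) = F j * psi j - (1 - F i) * F j * psi j by ring,
        ip_comm, ip_sub_left, ip_comm _ (psi i), ip_comm _ (psi i)]
    have h2 := abs_ip_le (((1 - F i) * F j) * psi j) (psi i)
    have h3 := n2_mul_le ((1 - F i) * F j) (psi j)
    have h4 := hFF i j hij
    have h5 : gw i j = (1 / 2 : ℝ) ^ (j - i) := by unfold gw; congr 1; omega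
    have h6 : n2 (((1 - F i) * F j) * psi j) * n2 (psi i) ≤
        5 * gw i j * (n2 (psi i) * n2 (psi j)) := by
      rw [h5]
      calc n2 (((1 - F i) * F j) * psi j) * n2 (psi i)
          ≤ (5 * (1 / 2 : ℝ) ^ (j - i) * n2 (psi j)) * n2 (psi i) :=
            mul_le_mul_of_nonneg_right (h3.trans (mul_le_mul_of_nonneg_right h4 (n2_nonneg _)))
              (n2_nonneg _)
        _ = _ := by ring
    have h7 := neg_abs_le (ip (((1 - F i) * F j) * psi j) (psi i))
    linarith
  have key2 : ∀ i j, ip (F i * psi i) (F j * psi j) ≤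
      ip (psi i) (F j * psi j) + ip (F i * psi i) (psi j) +
        5 * gw i j * (n2 (psi i) * n2 (psi j)) := by
    intro i j
    rcases lt_trichotomy i j with h | h | h
    · have := ip_nonneg (hFpsi i) (hpsi j)
      linarith [key i j h]
    · subst h
      have h0 : n2 (F i * psi i) ≤ n2 (psi i) :=
        (n2_mul_le _ _).trans (mul_le_of_le_one_left (n2_nonneg _) (hN i))
      have h1 : ip (F i * psi i) (F i * psi i) ≤ n2 (psi i) * n2 (psi i) := by
        rw [ip_self, sq]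
        exact mul_le_mul h0 h0 (n2_nonneg _) (n2_nonneg _)
      have h2 : gw i i = 1 := by unfold gw; simp
      have h3 := ip_nonneg (hFpsi i) (hpsi i)
      have h4 := ip_nonneg (hpsi i) (hFpsi i)
      rw [h2]
      nlinarith [mul_nonneg (n2_nonneg (psi i)) (n2_nonneg (psi i))]
    · have h1 := key j i h
      rw [gw_comm j i] at h1
      have h2 := ip_nonneg (hpsi i) (hFpsi j)
      rw [ip_comm (F i * psi i) (F j * psi j), ip_comm (F i * psi i) (psi j)]
      nlinarith [h1, h2]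
  have hsum : ip G G ≤ 2 * ip S G + 5 * (3 * ∑ i ∈ Finset.range n, n2 (psi i) ^ 2) := by
    have e1 : ip G G = ∑ i ∈ Finset.range n, ∑ j ∈ Finset.range n,
        ip (F i * psi i) (F j * psi j) := by
      rw [hG, ip_sum_left]; exact Finset.sum_congr rfl fun i _ => ip_sum_right _ _ _
    have e2 : ip S G = ∑ i ∈ Finset.range n, ∑ j ∈ Finset.range n, ip (psi i) (F j * psi j) := by
      rw [hG, hS, ip_sum_left]; exact Finset.sum_congr rfl fun i _ => ip_sum_right _ _ _
    have e3 : ip S G = ∑ i ∈ Finset.range n, ∑ j ∈ Finset.range n, ip (F i * psi i) (psi j) := by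
      rw [ip_comm, hG, hS, ip_sum_left]; exact Finset.sum_congr rfl fun i _ => ip_sum_right _ _ _
    have hsch := schur (Finset.range n) gw gw_nonneg 3 (fun i _ => sum_gw_le n i)
      (fun j _ => by simp_rw [fun i => gw_comm i j]; exact sum_gw_le n j) (fun i => n2 (psi i))
    rw [e1, two_mul]
    nth_rewrite 1 [e2]
    rw [e3]
    calc _ ≤ ∑ i ∈ Finset.range n, ∑ j ∈ Finset.range n, (ip (psi i) (F j * psi j) +
          ip (F i * psi i) (psi j) + 5 * gw i j * (n2 (psi i) * n2 (psi j))) :=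
          Finset.sum_le_sum fun i _ => Finset.sum_le_sum fun j _ => key2 i j
      _ = ∑ i ∈ Finset.range n, ∑ j ∈ Finset.range n, ip (psi i) (F j * psi j) +
          ∑ i ∈ Finset.range n, ∑ j ∈ Finset.range n, ip (F i * psi i) (psi j) +
          5 * ∑ i ∈ Finset.range n, ∑ j ∈ Finset.range n, gw i j * (n2 (psi i) * n2 (psi j)) := by
          rw [Finset.mul_sum, ← Finset.sum_add_distrib, ← Finset.sum_add_distrib]
          refine Finset.sum_congr rfl fun i _ => ?_
          rw [Finset.mul_sum, ← Finset.sum_add_distrib, ← Finset.sum_add_distrib]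
          refine Finset.sum_congr rfl fun j _ => ?_
          ring
      _ ≤ _ := by linarith
  have hS2 := sum_n2_sq_le (s := Finset.range n) hpsi
  rw [← hS] at hS2
  rw [ip_self] at hsum
  have h1 : ip S G ≤ n2 S * n2 G := (le_abs_self _).trans (abs_ip_le _ _)
  nlinarith [n2_nonneg S, n2_nonneg G, sq_nonneg (n2 G - n2 S)]

end Pool.Agent.H47.Vin
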