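import Pool.Agent.H36.Vin.Fej
import Pool.Agent.H27.Vin.DD

/-!
# The l^4 norm of a lacunary sum is controlled by its square function
-/

open scoped BigOperators

noncomputable section

namespace Pool.Agent.H47.Vin

/-- dual Doob for Fejer kernels -/
theorem dd (n : ℕ) (e : ℕ → ℕ) (he : StrictMono e) (h1 : ∀ j, 1 ≤ e j)
    (psi : ℕ → W) (hpsi : ∀ j, Pos (psi j)) :
    n2 (∑ j ∈ Finset.range n, Fj (e j) * psi j) ≤ 5 * n2 (∑ j ∈ Finset.range n, psi j) := by
  refine dd_abs n (fun j => Fj (e j)) (fun j => pos_Fj (h1 j)) (fun j => (norm_Fj (h1 j)).le)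
    (fun j => adj_Fj (h1 j)) (fun i j hij => norm_FF (h1 i) ?_) psi hpsi
  have : ∀ k, e i + k ≤ e (i + k) := by
    intro k
    induction k with
    | zero => simp
    | succ k ih =>
      have := he (Nat.lt_succ_self (i + k))
      have h2 : i + k + 1 = i + (k + 1) := by ring
      rw [Nat.succ_eq_add_one, h2] at this
      omega
  have h3 := this (j - i)
  rwa [Nat.add_sub_cancel' hij.le] at h3

theorem pos_Kp {p : ℕ} (hp : 1 ≤ p) : Pos (Kp p) := by
  unfold Kp
  have h := (pos_Fj hp).smul (r := 2) (by norm_num)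
  rw [Complex.ofReal_ofNat] at h
  exact h.add (pos_Fj (p := p + 1) (by omega))

theorem adj_Kp {p : ℕ} (hp : 1 ≤ p) : adj (Kp p) = Kp p := by
  refine ext_ev fun t => ?_
  unfold Kp
  have h1 := ev_adj t (Fj p)
  have h2 := ev_adj t (Fj (p + 1))
  rw [adj_Fj hp] at h1
  rw [adj_Fj (by omega)] at h2
  rw [ev_adj, ev_add, ev_smul', map_add, map_mul, ← h1, ← h2]
  congr 2
  exact Complex.conj_ofNat 2

theorem ddK (n : ℕ) (e : ℕ → ℕ) (he : StrictMono e) (h1 : ∀ j, 1 ≤ e j)
    (psi : ℕ → W) (hpsi : ∀ j, Pos (psi j)) :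
    n2 (∑ j ∈ Finset.range n, Kp (e j) * psi j) ≤ 15 * n2 (∑ j ∈ Finset.range n, psi j) := by
  have h2 : ∑ j ∈ Finset.range n, Kp (e j) * psi j =
      (2 : ℂ) • ∑ j ∈ Finset.range n, Fj (e j) * psi j +
        ∑ j ∈ Finset.range n, Fj (e j + 1) * psi j := by
    rw [Finset.smul_sum, ← Finset.sum_add_distrib]
    refine Finset.sum_congr rfl fun j _ => ?_
    unfold Kp
    rw [add_mul, smul_mul_assoc]
  rw [h2]
  have h3 := dd n e he h1 psi hpsi
  have h4 := dd n (fun j => e j + 1) (fun i j hij => Nat.succ_lt_succ (he hij))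
    (fun j => Nat.le_add_left 1 _) psi hpsi
  refine (n2_add_le _ _).trans ?_
  rw [n2_smul]
  norm_num
  linarith

theorem pt_ineq (h s : ℂ) : ‖h + s‖ ^ 4 ≤ ‖s‖ ^ 4 + 4 * (‖s‖ ^ 2 * (s * starRingEnd ℂ h).re)
    + 3 * ‖h‖ ^ 4 + 8 * (‖h‖ ^ 2 * ‖s‖ ^ 2) := by
  have h1 : ‖h + s‖ ^ 2 = ‖h‖ ^ 2 + ‖s‖ ^ 2 + 2 * (s * starRingEnd ℂ h).re := by
    rw [← Complex.normSq_eq_norm_sq, ← Complex.normSq_eq_norm_sq, ← Complex.normSq_eq_norm_sq,
      add_comm h s, Complex.normSq_add]
    ring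
  set r := (s * starRingEnd ℂ h).re with hr
  have h2 : |r| ≤ ‖s‖ * ‖h‖ := by
    have := Complex.abs_re_le_norm (s * starRingEnd ℂ h)
    rwa [norm_mul, Complex.norm_conj] at this
  have h3 : r ^ 2 ≤ (‖s‖ * ‖h‖) ^ 2 := by
    rw [← sq_abs]; exact pow_le_pow_left₀ (abs_nonneg _) h2 2
  have h4 : ‖h + s‖ ^ 4 = (‖h‖ ^ 2 + ‖s‖ ^ 2 + 2 * r) ^ 2 := by rw [← h1]; ring
  rw [h4]
  nlinarith [sq_nonneg (r - ‖h‖ ^ 2)]

theorem summable_ip' (a b : W) : Summable fun n => (co a n * starRingEnd ℂ (co b n)).re := by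
  refine Summable.of_norm_bounded ((summable_co a).mul_right ‖b‖) fun n => ?_
  rw [Real.norm_eq_abs]
  refine (Complex.abs_re_le_norm _).trans ?_
  rw [norm_mul, Complex.norm_conj]
  exact mul_le_mul_of_nonneg_left (norm_co_le b n) (norm_nonneg _)

theorem quart_ineq (h s : W) : n4 (h + s) ^ 4 ≤ n4 s ^ 4 + 4 * ip (had (psq s) s) h +
    3 * n4 h ^ 4 + 8 * ip (psq h) (psq s) := by
  have e : ∀ a : W, n4 a ^ 4 = ip (psq a) (psq a) := fun a => by
    rw [ip_self, ← n4_sq]; ring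
  rw [e, e, e]
  have s1 := summable_ip' (psq s) (psq s)
  have s2 := (summable_ip' (had (psq s) s) h).mul_left 4
  have s3 := (summable_ip' (psq h) (psq h)).mul_left 3
  have s4 := (summable_ip' (psq h) (psq s)).mul_left 8
  rw [ip_eq, ip_eq, ip_eq, ip_eq, ip_eq]
  rw [← tsum_mul_left, ← tsum_mul_left, ← tsum_mul_left, ← s1.tsum_add s2,
    ← (s1.add s2).tsum_add s3, ← ((s1.add s2).add s3).tsum_add s4]
  refine Summable.tsum_le_tsum (fun n => ?_) (summable_ip' _ _) (((s1.add s2).add s3).add s4)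
  have hp := pt_ineq (co h n) (co s n)
  simp only [co_psq, co_had, Complex.conj_ofReal, co_add]
  have e1 : ∀ x : ℝ, (((x ^ 2 : ℝ) : ℂ) * ((x ^ 2 : ℝ) : ℂ)).re = x ^ 4 := fun x => by
    rw [← Complex.ofReal_mul, Complex.ofReal_re]; ring
  have e2 : (((‖co h n‖ ^ 2 : ℝ) : ℂ) * ((‖co s n‖ ^ 2 : ℝ) : ℂ)).re =
      ‖co h n‖ ^ 2 * ‖co s n‖ ^ 2 := by
    rw [← Complex.ofReal_mul, Complex.ofReal_re]
  have e3 : (((‖co s n‖ ^ 2 : ℝ) : ℂ) * co s n * starRingEnd ℂ (co h n)).re =
      ‖co s n‖ ^ 2 * (co s n * starRingEnd ℂ (co h n)).re := by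
    rw [mul_assoc, Complex.re_ofReal_mul]
  rw [e1, e1, e1, e2, e3]
  exact hp

/-- the l^4 norm of a lacunary sum -/
theorem stepS (n : ℕ) (e : ℕ → ℕ) (he : ∀ i, e i + 6 ≤ e (i + 1)) (h : ℕ → W)
    (hH : ∀ i < n, High (Tp (e i + 1)) (h i))
    (hL : ∀ i, i + 1 < n → Low (Tp (e i + 6)) (h (i + 1))) :
    n4 (∑ i ∈ Finset.range n, h i) ^ 2 ≤ 400 * n2 (∑ i ∈ Finset.range n, psq (h i)) := by
  have hmono : StrictMono e := strictMono_nat_of_lt_succ fun i => by have := he i; omega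
  set S : ℕ → W := fun i => ∑ l ∈ Finset.Ico i n, h l with hS
  set F := ∑ i ∈ Finset.range n, h i with hF
  have hS0 : S 0 = F := by
    show ∑ l ∈ Finset.Ico 0 n, h l = _
    rw [hF, Finset.range_eq_Ico]
  have hSn : S n = 0 := by
    show ∑ l ∈ Finset.Ico n n, h l = 0
    simp
  have hSs : ∀ i < n, S i = h i + S (i + 1) := fun i hi =>
    Finset.sum_eq_sum_Ico_succ_bot hi h
  have hLow : ∀ i l, i < l → l < n → Low (Tp (e i + 6)) (h l) := by
    intro i l hil hln
    obtain ⟨k, rfl⟩ : ∃ k, l = k + 1 := ⟨l - 1, by omega⟩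
    refine (hL k hln).anti (Tp_anti ?_)
    have := hmono.monotone (show i ≤ k by omega)
    omega
  have hLowS : ∀ i < n, Low (Tp (e i + 6)) (S (i + 1)) := by
    intro i hi t ht hT
    show ev t (∑ l ∈ Finset.Ico (i + 1) n, h l) = 0
    rw [ev_sum]
    refine Finset.sum_eq_zero fun l hl => ?_
    rw [Finset.mem_Ico] at hl
    exact hLow i l (by omega) hl.2 t ht hT
  have hlin : ∀ i < n, ip (had (psq (S (i + 1))) (S (i + 1))) (h i) = 0 := by
    intro i hi
    have h1 := hLowS i hi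
    have hT : Tp (e i + 6) ≤ Real.pi / 32 := by
      have := Tp_anti (show 6 ≤ e i + 6 by omega)
      refine this.trans (le_of_eq ?_)
      unfold Tp; ring
    have hpi := Real.pi_pos
    have h2 := h1.psq (by linarith)
    have h3 : Low (2 * Tp (e i + 6) + Tp (e i + 6)) (had (psq (S (i + 1))) (S (i + 1))) :=
      h2.had h1 (by linarith)
    have h4 : Tp (e i + 1) = 32 * Tp (e i + 6) := by
      unfold Tp
      rw [show (2 : ℝ) ^ (e i + 6) = 32 * 2 ^ (e i + 1) by ring]
      field_simp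
    have h5 := Tp_pos (e i + 6)
    exact ip_low_high (h3.anti (show _ ≤ Tp (e i + 1) by linarith)) (hH i hi)
  have hkap : ∀ i < n, S (i + 1) = kap (e i + 4) * F := by
    intro i hi
    rw [← hS0]
    show S (i + 1) = kap (e i + 4) * ∑ l ∈ Finset.Ico 0 n, h l
    rw [← Finset.sum_Ico_consecutive h (Nat.zero_le (i + 1)) (by omega), mul_add]
    have h1 : kap (e i + 4) * ∑ l ∈ Finset.Ico 0 (i + 1), h l = 0 := by
      rw [Finset.mul_sum]
      refine Finset.sum_eq_zero fun l hl => ?_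
      rw [Finset.mem_Ico] at hl
      refine kap_mul_of_high (by omega) ((hH l (by omega)).anti (Tp_anti ?_))
      have := hmono.monotone (show l ≤ i by omega)
      omega
    rw [h1, zero_add, kap_mul_of_low (by omega)]
    exact (hLowS i hi).anti (Tp_anti (by omega))
  set A := n4 F ^ 2 with hA
  set Q := n2 (∑ i ∈ Finset.range n, psq (h i)) with hQ
  have hA2 : n2 (psq F) = A := by rw [hA, n4_sq]
  have hcross : ∑ i ∈ Finset.range n, ip (psq (h i)) (psq (S (i + 1))) ≤ 45 * Q * A := by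
    have h1 : ∀ i ∈ Finset.range n, ip (psq (h i)) (psq (S (i + 1))) ≤
        3 * ip (Kp (e i + 4) * psq (h i)) (psq F) := by
      intro i hi
      rw [hkap i (Finset.mem_range.1 hi)]
      have h2 := dom_psq_mul' (dom_ab_kap (p := e i + 4) (by omega)) F
      have hK : Pos (Kp (e i + 4) * psq F) := (pos_Kp (by omega)).mul (pos_psq F)
      have h3 : ip (psq (h i)) (psq (kap (e i + 4) * F)) ≤
          ‖kap (e i + 4)‖ * ip (psq (h i)) (Kp (e i + 4) * psq F) := by
        rw [← ip_smul_right]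
        exact ip_mono_right (pos_psq _) h2
      refine h3.trans ?_
      rw [ip_mul_left, adj_Kp (by omega)]
      exact mul_le_mul_of_nonneg_right (norm_kap_le (by omega)) (ip_nonneg (pos_psq _) hK)
    calc _ ≤ ∑ i ∈ Finset.range n, 3 * ip (Kp (e i + 4) * psq (h i)) (psq F) :=
          Finset.sum_le_sum h1
      _ = 3 * ip (∑ i ∈ Finset.range n, Kp (e i + 4) * psq (h i)) (psq F) := by
          rw [← Finset.mul_sum, ip_sum_left]
      _ ≤ 3 * ((15 * Q) * A) := by
          have h2 := ip_le (∑ i ∈ Finset.range n, Kp (e i + 4) * psq (h i)) (psq F)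
          have h3 := ddK n (fun i => e i + 4) (fun i j hij => by
            have := hmono hij; show e i + 4 < e j + 4; omega) (fun j => by omega)
            (fun i => psq (h i)) (fun i => pos_psq _)
          rw [hA2] at h2
          have hA0 : 0 ≤ A := by rw [hA]; positivity
          have := mul_le_mul_of_nonneg_right h3 hA0
          linarith
      _ = _ := by ring
  have htel : ∀ m ≤ n, n4 (S 0) ^ 4 ≤ n4 (S m) ^ 4 + ∑ i ∈ Finset.range m,
      (3 * n4 (h i) ^ 4 + 8 * ip (psq (h i)) (psq (S (i + 1)))) := by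
    intro m
    induction m with
    | zero => intro _; simp
    | succ m ih =>
      intro hm
      have h1 := ih (by omega)
      have h2 := quart_ineq (h m) (S (m + 1))
      rw [← hSs m (by omega), hlin m (by omega)] at h2
      rw [Finset.sum_range_succ]
      linarith
  have h0 := htel n le_rfl
  rw [hSn, hS0] at h0
  have h4 : n4 (0 : W) = 0 := by
    have := n4_smul 0 (0 : W); simpa using this
  rw [h4, Finset.sum_add_distrib, ← Finset.mul_sum, ← Finset.mul_sum] at h0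
  have h5 : ∑ i ∈ Finset.range n, n4 (h i) ^ 4 ≤ Q ^ 2 := by
    have := sum_n2_sq_le (s := Finset.range n) (psi := fun i => psq (h i)) (fun i => pos_psq _)
    refine le_trans (le_of_eq ?_) this
    refine Finset.sum_congr rfl fun i _ => ?_
    rw [← n4_sq]; ring
  have h6 : n4 F ^ 4 = A ^ 2 := by rw [hA]; ring
  rw [h6] at h0
  have hQ0 : 0 ≤ Q := n2_nonneg _
  have hA0 : 0 ≤ A := by rw [hA]; positivity
  by_contra hcon
  push Not at hcon
  nlinarith

end Pool.Agent.H47.Vin
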