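import Pool.Agent.H27.Vin.Comb2
import Pool.Agent.H27.Vin.StepS

/-!
# The dual maximal inequality for shifted combs
-/

open scoped BigOperators

noncomputable section

namespace Pool.Agent.H47.Vin

theorem Dom.adj {a b : W} (h : Dom a b) : Dom (adj a) (adj b) := by
  unfold Dom at *
  rw [← adj_sub]
  exact Pos.adj h

theorem Dom.mul_right {a b c : W} (hc : Pos c) (h : Dom a b) : Dom (a * c) (b * c) := by
  rw [mul_comm a, mul_comm b]; exact Dom.mul_left hc h

/-- one stage -/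
theorem comb_stage (s : Finset ℕ) (M : ℕ) (x : ℕ → ℝ) (hx : ∀ u, 0 < x u) (hx1 : ∀ u, x u ≤ 1)
    (psi : ℕ → W) (hpsi : ∀ u, Pos (psi u)) :
    n2 (∑ u ∈ s, Hc M (x u) * psi u) ≤ 8 * n2 (∑ u ∈ s, psi u) := by
  set S := ∑ u ∈ s, psi u with hS
  set G := ∑ u ∈ s, Hc M (x u) * psi u with hG
  set G' := ∑ u ∈ s, adj (Hc M (x u)) * psi u with hG'
  have hH : ∀ u, Pos (Hc M (x u)) := fun u => pos_Hc (hx u) (hx1 u)
  have k1 : ∀ u v, x u ≤ x v → ip (Hc M (x u) * psi u) (Hc M (x v) * psi v) ≤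
      ip (adj (Hc M (x u)) * psi u) (psi v) + ip (Hc M (x u) * psi u) (psi v) := by
    intro u v h
    have h1 : ip (Hc M (x u) * psi u) (Hc M (x v) * psi v) =
        ip (psi u) (adj (Hc M (x u)) * Hc M (x v) * psi v) := by
      rw [ip_mul_left, mul_assoc]
    have h2 : Dom (adj (Hc M (x u)) * Hc M (x v) * psi v)
        ((Hc M (x u) + adj (Hc M (x u))) * psi v) :=
      (dom_adj_Hc_mul (hx u) h (hx1 v)).mul_right (hpsi v)
    have h3 := ip_mono_right (hpsi u) h2
    rw [h1]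
    refine h3.trans (le_of_eq ?_)
    rw [add_mul, ip_add_right, ip_mul_right, ip_mul_right, adj_adj]
  have k2 : ∀ u v, x u ≤ x v → ip (adj (Hc M (x u)) * psi u) (adj (Hc M (x v)) * psi v) ≤
      ip (adj (Hc M (x u)) * psi u) (psi v) + ip (Hc M (x u) * psi u) (psi v) := by
    intro u v h
    have h1 : ip (adj (Hc M (x u)) * psi u) (adj (Hc M (x v)) * psi v) =
        ip (psi u) (adj (adj (Hc M (x u)) * Hc M (x v)) * psi v) := by
      rw [ip_mul_left, adj_mul, mul_assoc]
    have h2 : Dom (adj (adj (Hc M (x u)) * Hc M (x v)) * psi v)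
        (adj (Hc M (x u) + adj (Hc M (x u))) * psi v) :=
      (dom_adj_Hc_mul (hx u) h (hx1 v)).adj.mul_right (hpsi v)
    have h3 := ip_mono_right (hpsi u) h2
    rw [h1]
    refine h3.trans (le_of_eq ?_)
    rw [adj_add, adj_adj, add_mul, ip_add_right, ip_mul_right, ip_mul_right, adj_adj, add_comm]
  have nn : ∀ u v, 0 ≤ ip (Hc M (x u) * psi u) (psi v) := fun u v =>
    ip_nonneg ((hH u).mul (hpsi u)) (hpsi v)
  have nn' : ∀ u v, 0 ≤ ip (adj (Hc M (x u)) * psi u) (psi v) := fun u v =>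
    ip_nonneg ((hH u).adj.mul (hpsi u)) (hpsi v)
  have k3 : ∀ u v, ip (Hc M (x u) * psi u) (Hc M (x v) * psi v) ≤
      (ip (adj (Hc M (x u)) * psi u) (psi v) + ip (Hc M (x u) * psi u) (psi v)) +
      (ip (adj (Hc M (x v)) * psi v) (psi u) + ip (Hc M (x v) * psi v) (psi u)) := by
    intro u v
    rcases le_total (x u) (x v) with h | h
    · have := k1 u v h
      linarith [nn v u, nn' v u]
    · have := k1 v u h
      rw [ip_comm]
      linarith [nn u v, nn' u v]
  have k4 : ∀ u v, ip (adj (Hc M (x u)) * psi u) (adj (Hc M (x v)) * psi v) ≤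
      (ip (adj (Hc M (x u)) * psi u) (psi v) + ip (Hc M (x u) * psi u) (psi v)) +
      (ip (adj (Hc M (x v)) * psi v) (psi u) + ip (Hc M (x v) * psi v) (psi u)) := by
    intro u v
    rcases le_total (x u) (x v) with h | h
    · have := k2 u v h
      linarith [nn v u, nn' v u]
    · have := k2 v u h
      rw [ip_comm]
      linarith [nn u v, nn' u v]
  have e1 : ip G' S + ip G S = ∑ u ∈ s, ∑ v ∈ s,
      (ip (adj (Hc M (x u)) * psi u) (psi v) + ip (Hc M (x u) * psi u) (psi v)) := by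
    rw [hG, hG', hS, ip_sum_left, ip_sum_left, ← Finset.sum_add_distrib]
    refine Finset.sum_congr rfl fun u _ => ?_
    rw [ip_sum_right, ip_sum_right, ← Finset.sum_add_distrib]
  have e2 : ip G' S + ip G S = ∑ u ∈ s, ∑ v ∈ s,
      (ip (adj (Hc M (x v)) * psi v) (psi u) + ip (Hc M (x v) * psi v) (psi u)) := by
    rw [e1, Finset.sum_comm]
  have hA : ip G G ≤ 2 * (ip G' S + ip G S) := by
    rw [two_mul]
    nth_rewrite 1 [e1]
    rw [e2, hG, ip_sum_left, ← Finset.sum_add_distrib]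
    refine Finset.sum_le_sum fun u _ => ?_
    rw [ip_sum_right, ← Finset.sum_add_distrib]
    exact Finset.sum_le_sum fun v _ => k3 u v
  have hA' : ip G' G' ≤ 2 * (ip G' S + ip G S) := by
    rw [two_mul]
    nth_rewrite 1 [e1]
    rw [e2, hG', ip_sum_left, ← Finset.sum_add_distrib]
    refine Finset.sum_le_sum fun u _ => ?_
    rw [ip_sum_right, ← Finset.sum_add_distrib]
    exact Finset.sum_le_sum fun v _ => k4 u v
  rw [ip_self] at hA hA'
  have h1 := ip_le G' S
  have h2 := ip_le G S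
  have n1 := n2_nonneg G
  have n3 := n2_nonneg G'
  have n4' := n2_nonneg S
  by_contra hcon
  push Not at hcon
  nlinarith [sq_nonneg (n2 G - n2 G')]

/-- near invariance of low frequency elements under a shifted comb -/
theorem norm_one_sub_comb_mul_kap {M sh l : ℕ} {x : ℝ} (hx : 0 < x) (hx1 : x ≤ 1) (hl : 1 ≤ l) :
    ‖(1 - mono (sh : ℤ) * Hc M x) * kap l‖ ≤ 20 * (sh + M / x) / 2 ^ l := by
  have h1 : (1 - mono (sh : ℤ) * Hc M x) * kap l = (1 - mono (sh : ℤ)) * kap l +
      (((1 - x) / x : ℝ) : ℂ) • (mono (sh : ℤ) * Hc M x * ((1 - mono (M : ℤ)) * kap l)) := by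
    have : (1 - mono (sh : ℤ) * Hc M x) * kap l = (1 - mono (sh : ℤ)) * kap l +
      mono (sh : ℤ) * (1 - Hc M x) * kap l := by ring
    rw [this, one_sub_Hc hx hx1]
    congr 1
    rw [mul_smul_comm, smul_mul_assoc]
    congr 1
    ring
  rw [h1]
  refine (norm_add_le _ _).trans ?_
  have h2 := norm_one_sub_mono_mul_kap hl (sh : ℤ)
  have h3 := norm_one_sub_mono_mul_kap hl (M : ℤ)
  rw [norm_smul, Complex.norm_real, Real.norm_of_nonneg (div_nonneg (by linarith) hx.le)]
  have h4 : ‖mono (sh : ℤ) * Hc M x * ((1 - mono (M : ℤ)) * kap l)‖ ≤ 20 * |((M : ℤ) : ℝ)| / 2 ^ l := by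
    refine (norm_mul_le _ _).trans ?_
    have h5 : ‖mono (sh : ℤ) * Hc M x‖ ≤ 1 := by
      refine (norm_mul_le _ _).trans ?_
      rw [norm_mono, one_mul]; exact norm_Hc_le hx hx1
    exact (mul_le_of_le_one_left (norm_nonneg _) h5).trans h3
  have h6 : |((sh : ℤ) : ℝ)| = sh := by simp
  have h7 : |((M : ℤ) : ℝ)| = M := by simp
  rw [h6] at h2
  rw [h7] at h4
  have h8 : (1 - x) / x ≤ 1 / x := by
    apply div_le_div_of_nonneg_right _ hx.le; linarith
  calc _ ≤ 20 * (sh : ℝ) / 2 ^ l + 1 / x * (20 * M / 2 ^ l) :=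
        add_le_add h2 (mul_le_mul h8 h4 (norm_nonneg _) (by positivity))
    _ = _ := by field_simp

/-- abstract almost orthogonality for positive elements -/
theorem parity_abs (s : Finset ℕ) (σ h : ℕ → W) (hσ : ∀ k, Pos (σ k)) (hh : ∀ k, Pos (h k))
    (h8 : ∀ k ∈ s, n2 (h k) ≤ 8 * n2 (σ k))
    (hc : ∀ j ∈ s, ∀ k ∈ s, j < k → ip (h j) (h k) ≤ ip (σ j) (h k) +
      gw j k * (n2 (σ j) * n2 (σ k))) :
    n2 (∑ k ∈ s, h k) ≤ 10 * n2 (∑ k ∈ s, σ k) := by
  set S := ∑ k ∈ s, σ k with hS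
  set G := ∑ k ∈ s, h k with hG
  let w : ℕ → ℕ → ℝ := fun j k => gw j k + (if j = k then 64 else 0)
  have hw : ∀ j k, 0 ≤ w j k := fun j k => by
    show 0 ≤ gw j k + (if j = k then 64 else 0)
    have := gw_nonneg j k
    split_ifs <;> linarith
  have hrow : ∀ j ∈ s, ∑ k ∈ s, w j k ≤ 67 := by
    intro j hj
    show ∑ k ∈ s, (gw j k + (if j = k then (64:ℝ) else 0)) ≤ 67
    rw [Finset.sum_add_distrib, Finset.sum_ite_eq, if_pos hj]
    linarith [sum_gw_le' s j]
  have hcol : ∀ k ∈ s, ∑ j ∈ s, w j k ≤ 67 := by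
    intro k hk
    show ∑ j ∈ s, (gw j k + (if j = k then (64:ℝ) else 0)) ≤ 67
    rw [Finset.sum_add_distrib, Finset.sum_ite_eq', if_pos hk]
    simp_rw [gw_comm _ k]
    linarith [sum_gw_le' s k]
  have key : ∀ j ∈ s, ∀ k ∈ s, ip (h j) (h k) ≤ ip (σ j) (h k) + ip (h j) (σ k) +
      w j k * (n2 (σ j) * n2 (σ k)) := by
    intro j hj k hk
    have hp : 0 ≤ n2 (σ j) * n2 (σ k) := mul_nonneg (n2_nonneg _) (n2_nonneg _)
    rcases lt_trichotomy j k with hlt | heq | hgt
    · have h1 := hc j hj k hk hlt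
      have h2 := ip_nonneg (hh j) (hσ k)
      have h3 : w j k = gw j k := by
        show gw j k + (if j = k then (64:ℝ) else 0) = gw j k
        rw [if_neg hlt.ne, add_zero]
      rw [h3]; linarith
    · subst heq
      have h1 := ip_nonneg (hh j) (hσ j)
      have h2 := ip_nonneg (hσ j) (hh j)
      have h3 : 64 ≤ w j j := by
        show 64 ≤ gw j j + (if j = j then (64:ℝ) else 0)
        rw [if_pos rfl]; linarith [gw_nonneg j j]
      have h4 : ip (h j) (h j) ≤ 64 * (n2 (σ j) * n2 (σ j)) := by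
        rw [ip_self]
        have := h8 j hj
        nlinarith [n2_nonneg (h j), n2_nonneg (σ j)]
      have h5 := mul_le_mul_of_nonneg_right h3 hp
      linarith
    · have h1 := hc k hk j hj hgt
      have h2 := ip_nonneg (hσ j) (hh k)
      have h3 : w j k = gw j k := by
        show gw j k + (if j = k then (64:ℝ) else 0) = gw j k
        rw [if_neg hgt.ne', add_zero]
      rw [h3, gw_comm, mul_comm (n2 (σ j)), ip_comm (h j) (h k), ip_comm (h j) (σ k)]
      linarith
  have e1 : ip S G = ∑ j ∈ s, ∑ k ∈ s, ip (σ j) (h k) := by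
    rw [hS, hG, ip_sum_left]; exact Finset.sum_congr rfl fun i _ => ip_sum_right _ _ _
  have e2 : ip S G = ∑ j ∈ s, ∑ k ∈ s, ip (h j) (σ k) := by
    rw [ip_comm, hS, hG, ip_sum_left]; exact Finset.sum_congr rfl fun i _ => ip_sum_right _ _ _
  have hsum : ip G G ≤ 2 * ip S G + 67 * ∑ k ∈ s, n2 (σ k) ^ 2 := by
    have hsch := schur s w hw 67 hrow hcol (fun k => n2 (σ k))
    rw [two_mul]
    nth_rewrite 1 [e1]
    rw [e2]
    calc ip G G = ∑ j ∈ s, ∑ k ∈ s, ip (h j) (h k) := by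
          rw [hG, ip_sum_left]; exact Finset.sum_congr rfl fun i _ => ip_sum_right _ _ _
      _ ≤ ∑ j ∈ s, ∑ k ∈ s, (ip (σ j) (h k) + ip (h j) (σ k) +
          w j k * (n2 (σ j) * n2 (σ k))) :=
          Finset.sum_le_sum fun j hj => Finset.sum_le_sum fun k hk => key j hj k hk
      _ = ∑ j ∈ s, ∑ k ∈ s, ip (σ j) (h k) + ∑ j ∈ s, ∑ k ∈ s, ip (h j) (σ k) +
          ∑ j ∈ s, ∑ k ∈ s, w j k * (n2 (σ j) * n2 (σ k)) := by
          simp_rw [Finset.sum_add_distrib]
      _ ≤ _ := by linarith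
  have hS2 := sum_n2_sq_le (s := s) hσ
  rw [← hS] at hS2
  rw [ip_self] at hsum
  have h1 := ip_le S G
  have h2 := n2_nonneg S
  have h3 := n2_nonneg G
  by_contra hcon
  push Not at hcon
  nlinarith

/-- the dual maximal inequality for shifted combs, all stages -/
theorem comb_all (K : ℕ) (nb M sh l : ℕ → ℕ) (ξ : ℕ → ℝ) (x : ℕ → ℕ → ℝ) (psi : ℕ → ℕ → W)
    (hξ : ∀ k, 0 < ξ k) (hx : ∀ k u, ξ k ≤ x k u) (hx1 : ∀ k u, x k u ≤ 1)
    (hpsi : ∀ k u, Pos (psi k u)) (hl : ∀ k, 1 ≤ l k)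
    (hlow : ∀ k, 2 ≤ k → k < K → ∀ u < nb k, kap (l k) * psi k u = psi k u)
    (herr : ∀ j k, j + 2 ≤ k → k < K →
      160 * nb j * (sh j + M j / ξ j) ≤ 2 ^ (l k) * (1 / 2 : ℝ) ^ k) :
    n2 (∑ k ∈ Finset.range K, mono (sh k : ℤ) * ∑ u ∈ Finset.range (nb k),
      Hc (M k) (x k u) * psi k u) ≤
      20 * n2 (∑ k ∈ Finset.range K, ∑ u ∈ Finset.range (nb k), psi k u) := by
  set σ : ℕ → W := fun k => ∑ u ∈ Finset.range (nb k), psi k u with hσd
  set h : ℕ → W := fun k => mono (sh k : ℤ) * ∑ u ∈ Finset.range (nb k),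
      Hc (M k) (x k u) * psi k u with hhd
  have hx0 : ∀ k u, 0 < x k u := fun k u => (hξ k).trans_le (hx k u)
  have hσ : ∀ k, Pos (σ k) := fun k => Pos.sum fun u _ => hpsi k u
  have hh : ∀ k, Pos (h k) := fun k => (pos_mono _).mul
    (Pos.sum fun u _ => (pos_Hc (hx0 k u) (hx1 k u)).mul (hpsi k u))
  have h8 : ∀ k, n2 (h k) ≤ 8 * n2 (σ k) := fun k => by
    show n2 (mono (sh k : ℤ) * _) ≤ _
    rw [n2_mono_mul]
    exact comb_stage _ (M k) (x k) (hx0 k) (hx1 k) (psi k) (hpsi k)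
  have hkap : ∀ k, 2 ≤ k → k < K → kap (l k) * h k = h k := by
    intro k hk hkK
    show kap (l k) * (mono (sh k : ℤ) * ∑ u ∈ Finset.range (nb k), Hc (M k) (x k u) * psi k u) = _
    rw [mul_left_comm, Finset.mul_sum]
    congr 1
    refine Finset.sum_congr rfl fun u hu => ?_
    rw [mul_left_comm, hlow k hk hkK u (Finset.mem_range.1 hu)]
  have hcross : ∀ j k, j + 2 ≤ k → k < K → ip (h j) (h k) ≤ ip (σ j) (h k) +
      gw j k * (n2 (σ j) * n2 (σ k)) := by
    intro j k hjk hkK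
    set ε : ℝ := 20 * (sh j + M j / ξ j) / 2 ^ (l k) with hε
    have hε0 : 0 ≤ ε := by
      rw [hε]; have := hξ j; positivity
    have h1 : ∀ u, ip (mono (sh j : ℤ) * (Hc (M j) (x j u) * psi j u)) (h k) ≤
        ip (psi j u) (h k) + ε * (n2 (psi j u) * n2 (h k)) := by
      intro u
      have e1 : ip (mono (sh j : ℤ) * (Hc (M j) (x j u) * psi j u)) (h k) = ip (psi j u) (h k) -
          ip ((1 - mono (sh j : ℤ) * Hc (M j) (x j u)) * kap (l k) * psi j u) (h k) := by
        have : ip ((1 - mono (sh j : ℤ) * Hc (M j) (x j u)) * kap (l k) * psi j u) (h k) =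
            ip ((1 - mono (sh j : ℤ) * Hc (M j) (x j u)) * psi j u) (h k) := by
          rw [show (1 - mono (sh j : ℤ) * Hc (M j) (x j u)) * kap (l k) * psi j u =
            kap (l k) * ((1 - mono (sh j : ℤ) * Hc (M j) (x j u)) * psi j u) by ring,
            ip_mul_left, adj_kap (hl k), hkap k (by omega) hkK]
        rw [this, ← ip_sub_left]
        congr 1
        ring
      have h2 := abs_ip_le ((1 - mono (sh j : ℤ) * Hc (M j) (x j u)) * kap (l k) * psi j u) (h k)
      have h3 := n2_mul_le ((1 - mono (sh j : ℤ) * Hc (M j) (x j u)) * kap (l k)) (psi j u)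
      have h4 : ‖(1 - mono (sh j : ℤ) * Hc (M j) (x j u)) * kap (l k)‖ ≤ ε := by
        refine (norm_one_sub_comb_mul_kap (hx0 j u) (hx1 j u) (hl k)).trans ?_
        rw [hε]
        refine div_le_div_of_nonneg_right ?_ (by positivity)
        have : (M j : ℝ) / x j u ≤ M j / ξ j :=
          div_le_div_of_nonneg_left (by positivity) (hξ j) (hx j u)
        linarith
      have h5 : n2 ((1 - mono (sh j : ℤ) * Hc (M j) (x j u)) * kap (l k) * psi j u) * n2 (h k) ≤
          ε * (n2 (psi j u) * n2 (h k)) := by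
        rw [← mul_assoc]
        exact mul_le_mul_of_nonneg_right
          (h3.trans (mul_le_mul_of_nonneg_right h4 (n2_nonneg _))) (n2_nonneg _)
      have h6 := neg_abs_le (ip ((1 - mono (sh j : ℤ) * Hc (M j) (x j u)) * kap (l k) * psi j u) (h k))
      rw [e1]; linarith
    have h2 : ip (h j) (h k) ≤ ip (σ j) (h k) + nb j * (ε * (n2 (σ j) * n2 (h k))) := by
      have e1 : ip (h j) (h k) = ∑ u ∈ Finset.range (nb j),
          ip (mono (sh j : ℤ) * (Hc (M j) (x j u) * psi j u)) (h k) := by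
        rw [← ip_sum_left, ← Finset.mul_sum]
      rw [e1]
      calc _ ≤ ∑ u ∈ Finset.range (nb j), (ip (psi j u) (h k) + ε * (n2 (σ j) * n2 (h k))) := by
            refine Finset.sum_le_sum fun u hu => (h1 u).trans ?_
            have : n2 (psi j u) ≤ n2 (σ j) := n2_le_n2_sum (hpsi j) hu
            have := mul_le_mul_of_nonneg_left (mul_le_mul_of_nonneg_right this (n2_nonneg (h k))) hε0
            linarith
        _ = _ := by
            rw [Finset.sum_add_distrib, ← ip_sum_left, Finset.sum_const, Finset.card_range,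
              nsmul_eq_mul]
    have h3 : nb j * (ε * (n2 (σ j) * n2 (h k))) ≤ gw j k * (n2 (σ j) * n2 (σ k)) := by
      have h4 : n2 (σ j) * n2 (h k) ≤ 8 * (n2 (σ j) * n2 (σ k)) := by
        have := mul_le_mul_of_nonneg_left (h8 k) (n2_nonneg (σ j))
        linarith
      have h5 : nb j * ε * 8 ≤ gw j k := by
        have h6 := herr j k hjk hkK
        have h7 : nb j * ε * 8 = 160 * nb j * (sh j + M j / ξ j) / 2 ^ (l k) := by
          rw [hε]; ring
        rw [h7, div_le_iff₀ (by positivity)]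
        refine h6.trans ?_
        rw [mul_comm]
        refine mul_le_mul_of_nonneg_right ?_ (by positivity)
        unfold gw
        exact pow_le_pow_of_le_one (by norm_num) (by norm_num) (by omega)
      calc nb j * (ε * (n2 (σ j) * n2 (h k))) = nb j * ε * (n2 (σ j) * n2 (h k)) := by ring
        _ ≤ nb j * ε * (8 * (n2 (σ j) * n2 (σ k))) :=
            mul_le_mul_of_nonneg_left h4 (by positivity)
        _ = nb j * ε * 8 * (n2 (σ j) * n2 (σ k)) := by ring
        _ ≤ _ := mul_le_mul_of_nonneg_right h5 (mul_nonneg (n2_nonneg _) (n2_nonneg _))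
    linarith
  have hpar : ∀ b, n2 (∑ k ∈ (Finset.range K).filter (fun k => k % 2 = b), h k) ≤
      10 * n2 (∑ k ∈ (Finset.range K).filter (fun k => k % 2 = b), σ k) := by
    intro b
    refine parity_abs _ σ h hσ hh (fun k _ => h8 k) ?_
    intro j hj k hk hjk
    rw [Finset.mem_filter, Finset.mem_range] at hj hk
    exact hcross j k (by omega) hk.1
  have hsub : ∀ b, n2 (∑ k ∈ (Finset.range K).filter (fun k => k % 2 = b), σ k) ≤
      n2 (∑ k ∈ Finset.range K, σ k) := by
    intro b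
    refine n2_le_of_dom (Pos.sum fun k _ => hσ k) ?_
    unfold Dom
    rw [← Finset.sum_filter_add_sum_filter_not (Finset.range K) (fun k => k % 2 = b) σ,
      add_sub_cancel_left]
    exact Pos.sum fun k _ => hσ k
  have hsplit : ∑ k ∈ Finset.range K, h k = ∑ k ∈ (Finset.range K).filter (fun k => k % 2 = 0), h k +
      ∑ k ∈ (Finset.range K).filter (fun k => k % 2 = 1), h k := by
    rw [← Finset.sum_filter_add_sum_filter_not (Finset.range K) (fun k => k % 2 = 0) h]
    congr 1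
    refine Finset.sum_congr ?_ fun _ _ => rfl
    ext k
    simp only [Finset.mem_filter]
    constructor
    · rintro ⟨h1, h2⟩; exact ⟨h1, by omega⟩
    · rintro ⟨h1, h2⟩; exact ⟨h1, by omega⟩
  rw [hsplit]
  refine (n2_add_le _ _).trans ?_
  linarith [hpar 0, hpar 1, hsub 0, hsub 1]

end Pool.Agent.H47.Vin
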