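import Pool.Agent.H47.Vin.Comb

/-!
# Products of geometric combs in the Wiener algebra
-/

open scoped BigOperators

noncomputable section

namespace Pool.Agent.H47.Vin

variable {M : ℕ} {x y : ℝ}

theorem one_sub_ne (h0 : 0 < x) (h1 : x ≤ 1) {w : ℂ} (hw : ‖w‖ = 1) :
    1 - ((1 - x : ℝ) : ℂ) * w ≠ 0 := by
  intro h
  have h2 : ‖((1 - x : ℝ) : ℂ) * w‖ = 1 := by
    rw [← sub_eq_zero.1 h, norm_one]
  rw [norm_mul, hw, mul_one, Complex.norm_real, Real.norm_of_nonneg (by linarith)] at h2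
  linarith

theorem ev_Hc' (hx : 0 < x) (hx1 : x ≤ 1) (t : ℝ) :
    (1 - ((1 - x : ℝ) : ℂ) * ev t (mono (M : ℤ))) * ev t (Hc M x) = x := by
  rw [ev_Hc hx hx1]
  exact mul_div_cancel₀ _ (one_sub_ne hx hx1 (norm_expM M t))

/-- `x (1 - H) = (1-x) (1-w) H` -/
theorem one_sub_Hc (hx : 0 < x) (hx1 : x ≤ 1) :
    1 - Hc M x = (((1 - x) / x : ℝ) : ℂ) • (Hc M x * (1 - mono (M : ℤ))) := by
  refine ext_ev fun t => ?_
  have h := ev_Hc' (M := M) hx hx1 t
  rw [ev_sub, ev_one', ev_smul', ev_mul', ev_sub, ev_one']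
  push_cast at h ⊢
  have hx0 : (x : ℂ) ≠ 0 := by exact_mod_cast hx.ne'
  set E := ev t (mono (M : ℤ))
  set k := ev t (Hc M x)
  field_simp
  linear_combination (-1 : ℂ) * h

/-- comparison of the positive combs -/
theorem dom_Hc_Hc {c : ℝ} (hx : 0 < x) (hxy : x ≤ y) (hy1 : y ≤ 1) (hcy : c * y ≤ x) :
    Dom ((c : ℂ) • Hc M y) (Hc M x) := by
  have hy : 0 < y := hx.trans_le hxy
  have hx1 : x ≤ 1 := hxy.trans hy1
  unfold Dom
  have s1 := summable_Hc (M := M) hx hx1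
  have s2 := (summable_Hc (M := M) hy hy1).const_smul (c : ℂ)
  have e : (c : ℂ) • Hc M y = ∑' l : ℕ, (c : ℂ) • (((y * (1 - y) ^ l : ℝ) : ℂ) • mono ((M * l : ℕ) : ℤ)) := by
    unfold Hc
    exact ((summable_Hc (M := M) hy hy1).tsum_const_smul _).symm
  rw [e]
  unfold Hc
  rw [← s1.tsum_sub s2]
  refine Pos.tsum fun l => ?_
  rw [smul_smul, ← Complex.ofReal_mul, ← sub_smul, ← Complex.ofReal_sub]
  refine (pos_mono _).smul ?_
  have h1 : (1 - y) ^ l ≤ (1 - x) ^ l := pow_le_pow_left₀ (by linarith) (by linarith) l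
  have h2 : 0 ≤ (1 - y) ^ l := pow_nonneg (by linarith) l
  have h3 : c * (y * (1 - y) ^ l) ≤ x * (1 - x) ^ l := by
    rw [← mul_assoc]
    exact mul_le_mul hcy h1 h2 hx.le
  linarith

/-- product of two geometric combs -/
theorem dom_adj_Hc_mul (hx : 0 < x) (hxy : x ≤ y) (hy1 : y ≤ 1) :
    Dom (adj (Hc M x) * Hc M y) (Hc M x + adj (Hc M x)) := by
  have hy : 0 < y := hx.trans_le hxy
  have hx1 : x ≤ 1 := hxy.trans hy1
  set D : ℝ := x + y - x * y with hD
  have hDpos : 0 < D := by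
    rw [hD]; nlinarith [mul_nonneg hy.le (sub_nonneg.2 hx1)]
  have hyD : y ≤ D := by rw [hD]; nlinarith
  have key : adj (Hc M x) * Hc M y = ((x / D : ℝ) : ℂ) • Hc M y + ((y / D : ℝ) : ℂ) • adj (Hc M x)
      - ((x * y / D : ℝ) : ℂ) • 1 := by
    refine ext_ev fun t => ?_
    have h2 := ev_Hc' (M := M) hy hy1 t
    have h3 := congrArg (starRingEnd ℂ) (ev_Hc' (M := M) hx hx1 t)
    rw [map_mul, map_sub, map_one, map_mul, Complex.conj_ofReal, Complex.conj_ofReal] at h3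
    have h5 : starRingEnd ℂ (ev t (mono (M : ℤ))) * ev t (mono (M : ℤ)) = 1 := by
      rw [← Complex.normSq_eq_conj_mul_self, Complex.normSq_eq_norm_sq, norm_expM]
      simp
    rw [ev_mul', ev_sub, ev_add, ev_smul', ev_smul', ev_smul', ev_one', ev_adj]
    set g := starRingEnd ℂ (ev t (Hc M x))
    set k := ev t (Hc M y)
    set F := starRingEnd ℂ (ev t (mono (M : ℤ)))
    set E := ev t (mono (M : ℤ))
    have hDC : (D : ℂ) ≠ 0 := by exact_mod_cast hDpos.ne'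
    have hDe : (D : ℂ) = x + y - x * y := by rw [hD]; push_cast; ring
    push_cast at h2 h3 ⊢
    field_simp
    rw [hDe]
    linear_combination (k - y) * h3 + (1 - (x:ℂ)) * F * g * h2 +
      (1 - (x:ℂ)) * (1 - y) * g * k * h5
  have d1 : Dom (((x / D : ℝ) : ℂ) • Hc M y) (Hc M x) := by
    refine dom_Hc_Hc hx hxy hy1 ?_
    rw [div_mul_eq_mul_div, div_le_iff₀ hDpos]
    exact mul_le_mul_of_nonneg_left hyD hx.le
  have d2 : Dom (((y / D : ℝ) : ℂ) • adj (Hc M x)) (adj (Hc M x)) := by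
    unfold Dom
    nth_rewrite 1 [← one_smul ℂ (adj (Hc M x))]
    rw [← Complex.ofReal_one, ← sub_smul, ← Complex.ofReal_sub]
    refine (pos_Hc hx hx1).adj.smul ?_
    have : y / D ≤ 1 := by
      rw [div_le_one hDpos]; exact hyD
    linarith
  rw [key]
  refine Dom.trans ?_ (d1.add d2)
  unfold Dom
  rw [sub_sub_cancel]
  exact pos_one.smul (by positivity)

end Pool.Agent.H47.Vin
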