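import Pool.Agent.H27.Vin.Inst
import Pool.Agent.H20.Vin.ParI

/-!
# The multiplier bound for the concrete parameters
-/

open scoped BigOperators

namespace Pool.Agent.H47.Vin

theorem Ph_eq (P : Par) (hp : ∀ k, P.p k = 2 ^ 40 * 40 ^ k) (hr : ∀ k, P.r k = 100 * (k + 1))
    (hn : ∀ k, P.n k = 1000 * (k + 1) ^ 2) (hm : ∀ k, P.m k = 25 * P.p (k + 1)) (k : ℕ) :
    P.Ph k = Ph p0 r0 I0 m0 k := by
  have e1 : P.p k = p0 k := by rw [hp]; unfold p0; rfl
  have e1' : P.p (k + 1) = p0 (k + 1) := by rw [hp]; unfold p0; rfl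
  have e2 : P.r k = 2 * r0 k := by rw [hr]; unfold r0; ring
  have e3 : P.I k = I0 k := by unfold Par.I I0; rw [hn]
  have e4 : P.m k = m0 k := by rw [hm, e1']; unfold m0; rfl
  unfold Par.Ph Ph
  rw [e1, e2, e3, e4]

/-- if the parameters are the concrete ones, all products of stage symbols are bounded on `l^4` -/
theorem hM_of (P : Par) (hp : ∀ k, P.p k = 2 ^ 40 * 40 ^ k) (hr : ∀ k, P.r k = 100 * (k + 1))
    (hn : ∀ k, P.n k = 1000 * (k + 1) ^ 2) (hm : ∀ k, P.m k = 25 * P.p (k + 1))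
    (i K : ℕ) (f : W) :
    n4 ((∏ j ∈ Finset.range K, P.Ph (i + 1 + j)) * f) ≤ 100003 * n4 f := by
  have h := mthm_shift mhyp0 (i + 1) K f
  have e : ∏ j ∈ Finset.range K, P.Ph (i + 1 + j) =
      ∏ k ∈ Finset.range K, Ph p0 r0 I0 m0 (k + (i + 1)) :=
    Finset.prod_congr rfl fun j _ => by rw [add_comm j (i + 1)]; exact Ph_eq P hp hr hn hm _
  rw [e]
  exact h

end Pool.Agent.H47.Vin
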