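import Pool.Agent.H27.Vin.MThm

/-!
# Shifted parameters and a concrete choice of the parameters
-/

open scoped BigOperators

noncomputable section

namespace Pool.Agent.H47.Vin

variable {p r I m E g : ℕ → ℕ}

theorem lamb_shift_le (m : ℕ → ℕ) (i k : ℕ) : lamb (fun j => m (j + i)) k ≤ lamb m (k + i) := by
  unfold lamb
  rw [add_comm k i, Finset.sum_range_add]
  have : ∑ j ∈ Finset.range k, 2 ^ m (j + i) = ∑ j ∈ Finset.range k, 2 ^ m (i + j) :=
    Finset.sum_congr rfl fun j _ => by rw [add_comm]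
  rw [this]
  exact Nat.le_add_left _ _

theorem MHyp.shift (h : MHyp p r I m E g) (i : ℕ) :
    MHyp (fun k => p (k + i)) (fun k => r (k + i)) (fun k => I (k + i)) (fun k => m (k + i))
      (fun k => E (k + i)) (fun k => g (k + i)) where
  p1 := h.p_pos _
  I1 := fun k => h.I1 _
  g1 := fun k => h.g1 _
  pm := fun k => h.pm _
  rg := fun k => h.rg _
  pE := fun k => h.pE _
  Ep := fun k => by
    have := h.Ep (k + i)
    rw [show k + 1 + i = k + i + 1 by ring]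
    exact this
  sg := fun n => by
    refine le_trans ?_ (h.sg (i + n))
    rw [Finset.sum_range_add]
    have h1 : ∑ k ∈ Finset.range n, ((I (k + i) : ℝ) + 1) * (1 / 2 : ℝ) ^ g (k + i) =
        ∑ k ∈ Finset.range n, ((I (i + k) : ℝ) + 1) * (1 / 2 : ℝ) ^ g (i + k) :=
      Finset.sum_congr rfl fun k _ => by rw [add_comm k i]
    rw [h1]
    exact le_add_of_nonneg_left (Finset.sum_nonneg fun k _ => by positivity)
  err := fun j => by
    have h1 := h.err (j + i)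
    rw [show j + 1 + i = j + i + 1 by ring]
    refine le_trans ?_ h1
    have h2 : (2 : ℝ) ^ j ≤ 2 ^ (j + i) := pow_le_pow_right₀ (by norm_num) (Nat.le_add_right _ _)
    have h3 : (lamb (fun j => m (j + i)) (j + 1) : ℝ) ≤ lamb m (j + i + 1) := by
      have := lamb_shift_le m i (j + 1)
      rw [show j + 1 + i = j + i + 1 by ring] at this
      exact_mod_cast this
    have h4 : (0 : ℝ) ≤ 2 ^ m (j + i) * (65 / 64 : ℝ) ^ I (j + i) := by positivity
    have h5 : (0 : ℝ) ≤ (lamb (fun j => m (j + i)) (j + 1) : ℝ) := by positivity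
    refine mul_le_mul ?_ ?_ ?_ ?_
    · exact mul_le_mul_of_nonneg_left h2 (by positivity)
    · linarith
    · exact add_nonneg h5 h4
    · positivity

theorem mthm_shift (h : MHyp p r I m E g) (i K : ℕ) (f : W) :
    n4 ((∏ k ∈ Finset.range K, Ph p r I m (k + i)) * f) ≤ 100003 * n4 f :=
  mthm (h.shift i) K f

/-! ### concrete parameters -/

def p0 (k : ℕ) : ℕ := 2 ^ 40 * 40 ^ k
def r0 (k : ℕ) : ℕ := 50 * (k + 1)
def I0 (k : ℕ) : ℕ := 64 * (1000 * (k + 1) ^ 2)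
def m0 (k : ℕ) : ℕ := 25 * p0 (k + 1)
def g0 (k : ℕ) : ℕ := 20 + 3 * k
def E0 (k : ℕ) : ℕ := p0 (k + 1) - (4 * g0 k + 4)

theorem cube_le (k : ℕ) : (k + 1) ^ 3 ≤ 40 ^ k := by
  calc (k + 1) ^ 3 ≤ (2 ^ k) ^ 3 := Nat.pow_le_pow_left (Nat.lt_two_pow_self) 3
    _ = 8 ^ k := by rw [← pow_mul, mul_comm k 3, pow_mul]; norm_num
    _ ≤ 40 ^ k := Nat.pow_le_pow_left (by norm_num) k

theorem p0_ge (k : ℕ) : 2 ^ 40 * (k + 1) ^ 3 ≤ p0 k := Nat.mul_le_mul_left _ (cube_le k)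

theorem p0_succ (k : ℕ) : p0 (k + 1) = 40 * p0 k := by unfold p0; rw [pow_succ]; ring

theorem m0_lt (k : ℕ) : m0 k + 1 ≤ m0 (k + 1) := by
  unfold m0
  rw [p0_succ (k + 1)]
  have := p0_ge (k + 1)
  have h1 : 1 ≤ (k + 1 + 1) ^ 3 := Nat.one_le_pow _ _ (by omega)
  omega

theorem lamb_le {m : ℕ → ℕ} (hm : ∀ k, m k + 1 ≤ m (k + 1)) (k : ℕ) :
    lamb m (k + 1) ≤ 2 ^ (m k + 1) := by
  induction k with
  | zero =>
    unfold lamb
    rw [Finset.sum_range_one]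
    exact Nat.pow_le_pow_right (by norm_num) (Nat.le_succ _)
  | succ k ih =>
    have h0 : lamb m (k + 1 + 1) = lamb m (k + 1) + 2 ^ m (k + 1) := by
      unfold lamb; rw [Finset.sum_range_succ]
    rw [h0]
    have h1 : 2 ^ (m k + 1) ≤ 2 ^ m (k + 1) := Nat.pow_le_pow_right (by norm_num) (hm k)
    have h2 : 2 ^ (m (k + 1) + 1) = 2 * 2 ^ m (k + 1) := by rw [pow_succ]; ring
    omega

/-- the main numerical inequality, abstractly -/
theorem err_abs (j P M E N : ℕ) (lam : ℕ) (hP : 2 ^ 40 * (j + 1) ^ 3 ≤ P) (hM : M = 1000 * P)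
    (hN : N = 1000 * (j + 1) ^ 2)
    (hE : E = 1600 * P - (4 * (20 + 3 * (j + 1)) + 4)) (hlam : lam ≤ 2 ^ (M + 1)) :
    2560 * (((64 * N : ℕ) : ℝ) + 1) * 2 ^ j *
      ((lam : ℝ) + 2 ^ M * (65 / 64 : ℝ) ^ (64 * N)) ≤ 2 ^ E := by
  have h1 : (j + 1) ^ 2 ≤ (j + 1) ^ 3 := Nat.pow_le_pow_right (by omega) (by norm_num)
  have h1' : 1 ≤ (j + 1) ^ 2 := Nat.one_le_pow _ _ (by omega)
  have h1'' : j + 1 ≤ (j + 1) ^ 2 := by nlinarith
  have h2 : ((65 : ℝ) / 64) ^ (64 * N) ≤ 2 ^ (2 * N) := by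
    have e1 : ((65 : ℝ) / 64) ^ (64 * N) = (((65 : ℝ) / 64) ^ 64) ^ N := pow_mul _ _ _
    have e2 : (2 : ℝ) ^ (2 * N) = ((2 : ℝ) ^ 2) ^ N := pow_mul _ _ _
    rw [e1, e2]
    exact pow_le_pow_left₀ (by positivity) (by norm_num) N
  have h3 : (((64 * N : ℕ) : ℝ) + 1) ≤ 2 ^ (17 + 2 * j) := by
    have h4 : (j + 1) ^ 2 ≤ 2 ^ (2 * j) := by
      rw [mul_comm 2 j, pow_mul]
      exact Nat.pow_le_pow_left (Nat.lt_two_pow_self) 2
    have h5 : 64 * N + 1 ≤ 2 ^ (17 + 2 * j) := by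
      rw [pow_add]
      have : 2 ^ 17 * (j + 1) ^ 2 ≤ 2 ^ 17 * 2 ^ (2 * j) := Nat.mul_le_mul_left _ h4
      have h6 : 64 * N + 1 ≤ 2 ^ 17 * (j + 1) ^ 2 := by
        rw [hN]; norm_num; omega
      exact h6.trans this
    exact_mod_cast h5
  have h7 : (lam : ℝ) ≤ 2 ^ (M + 1) := by exact_mod_cast hlam
  have h8 : (lam : ℝ) + 2 ^ M * (65 / 64 : ℝ) ^ (64 * N) ≤ 2 ^ (M + 2 + 2 * N) := by
    have a1 : (2 : ℝ) ^ (M + 1) ≤ 2 ^ (M + 1 + 2 * N) :=
      pow_le_pow_right₀ (by norm_num) (Nat.le_add_right _ _)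
    have a2 : (2 : ℝ) ^ M * (65 / 64 : ℝ) ^ (64 * N) ≤ 2 ^ (M + 1 + 2 * N) := by
      calc _ ≤ (2 : ℝ) ^ M * 2 ^ (2 * N) := mul_le_mul_of_nonneg_left h2 (by positivity)
        _ = 2 ^ (M + 2 * N) := by rw [pow_add]
        _ ≤ _ := pow_le_pow_right₀ (by norm_num) (by omega)
    have a3 : (2 : ℝ) ^ (M + 2 + 2 * N) = 2 ^ (M + 1 + 2 * N) + 2 ^ (M + 1 + 2 * N) := by
      rw [show M + 2 + 2 * N = (M + 1 + 2 * N) + 1 by ring, pow_succ]; ring
    rw [a3]; linarith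
  calc 2560 * (((64 * N : ℕ) : ℝ) + 1) * 2 ^ j * ((lam : ℝ) + 2 ^ M * (65 / 64 : ℝ) ^ (64 * N))
      ≤ 2 ^ 12 * 2 ^ (17 + 2 * j) * 2 ^ j * 2 ^ (M + 2 + 2 * N) := by
        refine mul_le_mul ?_ h8 (by positivity) (by positivity)
        refine mul_le_mul_of_nonneg_right ?_ (by positivity)
        exact mul_le_mul (by norm_num) h3 (by positivity) (by positivity)
    _ = 2 ^ (12 + (17 + 2 * j) + j + (M + 2 + 2 * N)) := by
        rw [← pow_add, ← pow_add, ← pow_add]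
    _ ≤ 2 ^ E := by
        refine pow_le_pow_right₀ (by norm_num) ?_
        rw [hE, hM, hN]
        have h9 : 2 ^ 40 * (j + 1) ^ 2 ≤ P := (Nat.mul_le_mul_left _ h1).trans hP
        norm_num at h9
        omega

/-- the concrete parameters satisfy all hypotheses of the multiplier theorem -/
theorem mhyp0 : MHyp p0 r0 I0 m0 E0 g0 where
  p1 := by unfold p0; norm_num
  I1 := fun k => by unfold I0; have : 1 ≤ (k + 1) ^ 2 := Nat.one_le_pow _ _ (by omega); omega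
  g1 := fun k => by unfold g0; omega
  pm := fun k => by unfold m0; rw [p0_succ]; omega
  rg := fun k => by unfold g0 r0; omega
  pE := fun k => by
    have h1 := p0_ge k
    have h2 : (k + 1) ^ 3 = (k + 1) ^ 2 * (k + 1) := by ring
    have h3 : 1 ≤ (k + 1) ^ 2 := Nat.one_le_pow _ _ (by omega)
    have h4 : k + 1 ≤ (k + 1) ^ 3 := by nlinarith
    have h5 : (2 * I0 k + 1) * r0 k = 6400000 * (k + 1) ^ 3 + 50 * (k + 1) := by
      unfold I0 r0; ring
    rw [h5]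
    unfold E0 g0
    rw [p0_succ]
    norm_num at h1
    omega
  Ep := fun k => by
    have h1 := p0_ge (k + 1)
    have h4 : k + 1 + 1 ≤ (k + 1 + 1) ^ 3 := by
      have : 1 ≤ (k + 1 + 1) ^ 2 := Nat.one_le_pow _ _ (by omega)
      nlinarith
    norm_num at h1
    unfold E0 g0
    omega
  sg := fun n => by
    have h0 : ∀ k, ((I0 k : ℝ) + 1) * (1 / 2 : ℝ) ^ g0 k ≤ (1 / 2 : ℝ) ^ (k + 1) := by
      intro k
      have h1 : I0 k + 1 ≤ 2 ^ 17 * 2 ^ (2 * k) := by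
        have h4 : (k + 1) ^ 2 ≤ 2 ^ (2 * k) := by
          rw [mul_comm 2 k, pow_mul]
          exact Nat.pow_le_pow_left (Nat.lt_two_pow_self) 2
        unfold I0
        have : 1 ≤ 2 ^ (2 * k) := Nat.one_le_two_pow
        norm_num; omega
      have h2 : ((I0 k : ℝ) + 1) ≤ 2 ^ 17 * 2 ^ (2 * k) := by exact_mod_cast h1
      calc ((I0 k : ℝ) + 1) * (1 / 2 : ℝ) ^ g0 k ≤ (2 ^ 17 * 2 ^ (2 * k)) * (1 / 2 : ℝ) ^ g0 k :=
            mul_le_mul_of_nonneg_right h2 (by positivity)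
        _ ≤ (1 / 2 : ℝ) ^ (k + 1) := by
            unfold g0
            rw [show 20 + 3 * k = 17 + 2 * k + (k + 1) + 2 by ring, pow_add, pow_add, pow_add]
            have e1 : (2 : ℝ) ^ 17 * 2 ^ (2 * k) * ((1 / 2) ^ 17 * (1 / 2) ^ (2 * k) *
              (1 / 2) ^ (k + 1) * (1 / 2) ^ 2) = ((2 : ℝ) * (1 / 2)) ^ 17 *
              ((2 : ℝ) * (1 / 2)) ^ (2 * k) * (1 / 2) ^ 2 * (1 / 2) ^ (k + 1) := by
              rw [mul_pow, mul_pow]; ring
            rw [e1]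
            have e2 : (0 : ℝ) ≤ (1 / 2) ^ (k + 1) := by positivity
            have e3 : ((2 : ℝ) * (1 / 2)) ^ 17 * ((2 : ℝ) * (1 / 2)) ^ (2 * k) * (1 / 2) ^ 2 = 1 / 4 := by
              norm_num
            rw [e3]
            linarith
    refine (Finset.sum_le_sum fun k _ => h0 k).trans ?_
    have h1 : ∑ k ∈ Finset.range n, (1 / 2 : ℝ) ^ (k + 1) = (1 / 2) * ∑ k ∈ Finset.range n, (1 / 2 : ℝ) ^ k := by
      rw [Finset.mul_sum]; exact Finset.sum_congr rfl fun k _ => by rw [pow_succ]; ring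
    rw [h1, geom_sum_eq (by norm_num)]
    have h2 : (0 : ℝ) ≤ (1 / 2) ^ n := by positivity
    have h3 : (1 / 2 : ℝ) * (((1 / 2) ^ n - 1) / (1 / 2 - 1)) = 1 - (1 / 2) ^ n := by ring
    rw [h3]; linarith
  err := fun j => by
    refine err_abs j (p0 j) (m0 j) (E0 (j + 1)) (1000 * (j + 1) ^ 2) (lamb m0 (j + 1)) (p0_ge j)
      ?_ rfl ?_ (lamb_le m0_lt j)
    · unfold m0; rw [p0_succ]; ring
    · unfold E0 g0; rw [p0_succ, p0_succ, ← mul_assoc, show 40 * 40 = 1600 by norm_num]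

/-- solution of the recursion `F (k+1) = F k * Φ (k+1) + s k` -/
theorem rec_sum {F Φ s : ℕ → W} (hF : ∀ k, F (k + 1) = F k * Φ (k + 1) + s k) (K : ℕ) :
    F K = F 0 * ∏ k ∈ Finset.Ico 1 (K + 1), Φ k +
      ∑ j ∈ Finset.range K, s j * ∏ k ∈ Finset.Ico (j + 2) (K + 1), Φ k := by
  induction K with
  | zero => simp
  | succ K ih =>
    rw [hF, Finset.sum_range_succ, Finset.Ico_self, Finset.prod_empty, mul_one,
      Finset.prod_Ico_succ_top (by omega : 1 ≤ K + 1)]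
    nth_rewrite 1 [ih]
    have h1 : ∑ j ∈ Finset.range K, s j * ∏ k ∈ Finset.Ico (j + 2) (K + 1 + 1), Φ k =
        (∑ j ∈ Finset.range K, s j * ∏ k ∈ Finset.Ico (j + 2) (K + 1), Φ k) * Φ (K + 1) := by
      rw [Finset.sum_mul]
      refine Finset.sum_congr rfl fun j hj => ?_
      have := Finset.mem_range.1 hj
      rw [Finset.prod_Ico_succ_top (by omega), mul_assoc]
    rw [h1]
    ring

/-- the `l^4` bound for the solution of the recursion -/
theorem n4_rec {F Φ s : ℕ → W} {C S : ℝ} (hF : ∀ k, F (k + 1) = F k * Φ (k + 1) + s k)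
    (hC : ∀ (i K : ℕ) (f : W), n4 ((∏ k ∈ Finset.range K, Φ (k + i)) * f) ≤ C * n4 f)
    (hC0 : 0 ≤ C) (hs : ∀ n, ∑ j ∈ Finset.range n, ‖s j‖ ≤ S) (K : ℕ) (f : W) :
    n4 (F K * f) ≤ C * (‖F 0‖ + S) * n4 f := by
  have hC' : ∀ (a b : ℕ) (f : W), n4 ((∏ k ∈ Finset.Ico a b, Φ k) * f) ≤ C * n4 f := by
    intro a b f
    rw [Finset.prod_Ico_eq_prod_range]
    have h1 : ∏ k ∈ Finset.range (b - a), Φ (a + k) = ∏ k ∈ Finset.range (b - a), Φ (k + a) :=
      Finset.prod_congr rfl fun k _ => by rw [add_comm]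
    rw [h1]
    exact hC a (b - a) f
  rw [rec_sum hF K, add_mul, mul_assoc, Finset.sum_mul]
  have hf := n4_nonneg f
  have h1 : n4 (F 0 * ((∏ k ∈ Finset.Ico 1 (K + 1), Φ k) * f)) ≤ ‖F 0‖ * (C * n4 f) :=
    (n4_mul_le _ _).trans (mul_le_mul_of_nonneg_left (hC' _ _ _) (norm_nonneg _))
  have h2 : n4 (∑ j ∈ Finset.range K, (s j * ∏ k ∈ Finset.Ico (j + 2) (K + 1), Φ k) * f) ≤
      S * (C * n4 f) := by
    refine (n4_sum_le _ _).trans ?_
    calc _ ≤ ∑ j ∈ Finset.range K, ‖s j‖ * (C * n4 f) := by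
          refine Finset.sum_le_sum fun j _ => ?_
          rw [mul_assoc]
          exact (n4_mul_le _ _).trans (mul_le_mul_of_nonneg_left (hC' _ _ _) (norm_nonneg _))
      _ = (∑ j ∈ Finset.range K, ‖s j‖) * (C * n4 f) := by rw [Finset.sum_mul]
      _ ≤ _ := mul_le_mul_of_nonneg_right (hs K) (mul_nonneg hC0 hf)
  refine (n4_add_le _ _).trans ?_
  calc _ ≤ ‖F 0‖ * (C * n4 f) + S * (C * n4 f) := add_le_add h1 h2
    _ = _ := by ring

end Pool.Agent.H47.Vin
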