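import Pool.Agent.H27.Vin.Vec
import Pool.Agent.H40.Vin.StepA

/-!
# Products of stage symbols are bounded multipliers of `l^4`
-/

open scoped BigOperators

noncomputable section

namespace Pool.Agent.H47.Vin

open Pool.Agent.H40.Vin

/-- total shift of the first `k` stages -/
def lamb (m : ℕ → ℕ) (k : ℕ) : ℕ := ∑ j ∈ Finset.range k, 2 ^ m j

/-- hypotheses on the parameters of the stages: stage `k` is `Phi (p k) (2 * r k) (I k) (m k)` -/
structure MHyp (p r I m E g : ℕ → ℕ) : Prop where
  p1 : 1 ≤ p 0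
  I1 : ∀ k, 1 ≤ I k
  g1 : ∀ k, 1 ≤ g k
  pm : ∀ k, p k ≤ m k
  rg : ∀ k, 2 * g k + 2 ≤ r k
  pE : ∀ k, p k + (2 * I k + 1) * r k ≤ E k
  Ep : ∀ k, E k + 4 * g k + 4 ≤ p (k + 1)
  sg : ∀ n, ∑ k ∈ Finset.range n, (I k + 1 : ℝ) * (1 / 2 : ℝ) ^ g k ≤ 1
  err : ∀ j, 2560 * (I j + 1 : ℝ) * 2 ^ j * (lamb m (j + 1) + 2 ^ m j * (65 / 64 : ℝ) ^ I j) ≤
    2 ^ E (j + 1)

/-- enumeration of the zones -/
def st (I : ℕ → ℕ) : ℕ → ℕ × ℕ
  | 0 => (0, 0)
  | j + 1 => if (st I j).2 < I (st I j).1 then ((st I j).1, (st I j).2 + 1) else ((st I j).1 + 1, 0)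

/-- number of zones of the first `k` stages -/
def Jn (I : ℕ → ℕ) (k : ℕ) : ℕ := ∑ i ∈ Finset.range k, (I i + 1)

/-- plateau exponents -/
def Aex (p r I E : ℕ → ℕ) (q : ℕ × ℕ) : ℕ :=
  if q.2 = I q.1 then E q.1 else p q.1 + (2 * q.2 + 1) * r q.1

/-- linear plateau exponents -/
def aex (p r I E : ℕ → ℕ) (j : ℕ) : ℕ := Aex p r I E (st I j)

theorem Jn_succ (I : ℕ → ℕ) (k : ℕ) : Jn I (k + 1) = Jn I k + (I k + 1) := by
  unfold Jn; rw [Finset.sum_range_succ]

theorem st_Jn (I : ℕ → ℕ) (k : ℕ) : ∀ v ≤ I k, st I (Jn I k + v) = (k, v) := by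
  induction k with
  | zero =>
    intro v
    induction v with
    | zero => intro _; simp [Jn, st]
    | succ v ih =>
      intro hv
      have h := ih (by omega)
      show st I (Jn I 0 + v + 1) = _
      unfold st
      rw [h]
      simp only
      rw [if_pos (by omega)]
  | succ k ihk =>
    intro v
    induction v with
    | zero =>
      intro _
      have h := ihk (I k) le_rfl
      rw [Jn_succ]
      show st I (Jn I k + I k + 1) = _
      unfold st
      rw [h]
      simp
    | succ v ih =>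
      intro hv
      have h := ih (by omega)
      show st I (Jn I (k + 1) + v + 1) = _
      unfold st
      rw [h]
      simp only
      rw [if_pos (by omega)]

theorem st_le (I : ℕ → ℕ) (j : ℕ) : (st I j).2 ≤ I (st I j).1 := by
  induction j with
  | zero => simp [st]
  | succ j ih =>
    unfold st
    split_ifs with h
    · exact h
    · exact Nat.zero_le _

theorem st_succ (I : ℕ → ℕ) (j : ℕ) :
    ((st I j).2 < I (st I j).1 ∧ st I (j + 1) = ((st I j).1, (st I j).2 + 1)) ∨
    ((st I j).2 = I (st I j).1 ∧ st I (j + 1) = ((st I j).1 + 1, 0)) := by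
  have h0 := st_le I j
  by_cases h : (st I j).2 < I (st I j).1
  · left
    refine ⟨h, ?_⟩
    show (if (st I j).2 < I (st I j).1 then ((st I j).1, (st I j).2 + 1) else ((st I j).1 + 1, 0)) = _
    rw [if_pos h]
  · right
    refine ⟨by omega, ?_⟩
    show (if (st I j).2 < I (st I j).1 then ((st I j).1, (st I j).2 + 1) else ((st I j).1 + 1, 0)) = _
    rw [if_neg h]

theorem sum_Jn (I : ℕ → ℕ) (f : ℕ → W) (K : ℕ) :
    ∑ j ∈ Finset.range (Jn I K), f j = dsum K (fun k => I k + 1) fun k v => f (Jn I k + v) := by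
  unfold dsum
  induction K with
  | zero => simp [Jn]
  | succ K ih =>
    rw [Jn_succ, Finset.sum_range_add, ih]
    exact (Finset.sum_range_succ (fun k => ∑ v ∈ Finset.range (I k + 1), f (Jn I k + v)) K).symm

theorem sum_JnR (I : ℕ → ℕ) (f : ℕ → ℝ) (K : ℕ) :
    ∑ j ∈ Finset.range (Jn I K), f j =
      ∑ k ∈ Finset.range K, ∑ v ∈ Finset.range (I k + 1), f (Jn I k + v) := by
  induction K with
  | zero => simp [Jn]
  | succ K ih =>
    rw [Jn_succ, Finset.sum_range_add, ih]
    exact (Finset.sum_range_succ (fun k => ∑ v ∈ Finset.range (I k + 1), f (Jn I k + v)) K).symm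

section

variable {p r I m E g : ℕ → ℕ}

theorem MHyp.r2 (h : MHyp p r I m E g) (k : ℕ) : 4 ≤ r k := by
  have := h.rg k; have := h.g1 k; omega

theorem MHyp.p_lt_E (h : MHyp p r I m E g) (k : ℕ) : p k + 12 ≤ E k := by
  have h1 := h.pE k
  have h2 := h.r2 k
  have h3 := h.I1 k
  nlinarith

theorem MHyp.E_mono (h : MHyp p r I m E g) {j k : ℕ} (hjk : j ≤ k) : E j + (k - j) ≤ E k := by
  induction k with
  | zero => have : j = 0 := by omega
            subst this; simp
  | succ k ih =>
    rcases Nat.lt_or_ge j (k + 1) with h1 | h1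
    · have h2 := ih (by omega)
      have h3 := h.Ep k
      have h4 := h.p_lt_E (k + 1)
      omega
    · have : j = k + 1 := by omega
      subst this; simp

theorem MHyp.p_pos (h : MHyp p r I m E g) (k : ℕ) : 1 ≤ p k := by
  cases k with
  | zero => exact h.p1
  | succ k => have := h.Ep k; omega

theorem MHyp.Ep' (h : MHyp p r I m E g) {j k : ℕ} (hjk : j < k) : E j + 8 ≤ p k := by
  obtain ⟨i, rfl⟩ : ∃ i, k = i + 1 := ⟨k - 1, by omega⟩
  have h1 := h.E_mono (show j ≤ i by omega)
  have h2 := h.Ep i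
  have h3 := h.g1 i
  omega

/-- plateau exponent of a zone is at most `E` -/
theorem MHyp.Aex_le (h : MHyp p r I m E g) {q : ℕ × ℕ} (hq : q.2 ≤ I q.1) :
    Aex p r I E q ≤ E q.1 := by
  unfold Aex
  split_ifs with h1
  · exact le_rfl
  · have h2 := h.pE q.1
    have : (2 * q.2 + 1) * r q.1 ≤ (2 * I q.1 + 1) * r q.1 := Nat.mul_le_mul_right _ (by omega)
    omega

theorem MHyp.le_Aex (h : MHyp p r I m E g) (q : ℕ × ℕ) :
    p q.1 + (2 * q.2 + 1) * r q.1 ≤ Aex p r I E q := by
  unfold Aex
  split_ifs with h1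
  · have h2 := h.pE q.1
    rw [h1]; exact h2
  · exact le_rfl

theorem MHyp.gap (h : MHyp p r I m E g) (j : ℕ) :
    aex p r I E j + 4 * g (st I j).1 + 4 ≤ aex p r I E (j + 1) := by
  unfold aex
  have hle := st_le I j
  have h1 := h.le_Aex (st I (j + 1))
  have h2 := h.Aex_le hle
  rcases st_succ I j with ⟨ha, hb⟩ | ⟨ha, hb⟩
  · rw [hb] at h1 ⊢
    simp only at h1
    have h3 : Aex p r I E (st I j) = p (st I j).1 + (2 * (st I j).2 + 1) * r (st I j).1 := by
      unfold Aex; rw [if_neg (by omega)]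
    have h4 := h.rg (st I j).1
    rw [h3]
    refine le_trans ?_ h1
    have : (2 * ((st I j).2 + 1) + 1) * r (st I j).1 =
        (2 * (st I j).2 + 1) * r (st I j).1 + 2 * r (st I j).1 := by ring
    rw [this]
    omega
  · rw [hb] at h1 ⊢
    simp only at h1
    have h4 := h.Ep (st I j).1
    have h5 : p ((st I j).1 + 1) ≤ Aex p r I E ((st I j).1 + 1, 0) :=
      (Nat.le_add_right _ _).trans h1
    omega

theorem MHyp.a0 (h : MHyp p r I m E g) : 1 ≤ aex p r I E 0 := by
  have h1 := h.le_Aex (st I 0)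
  have h2 := h.p1
  have h3 : (st I 0).1 = 0 := rfl
  rw [h3] at h1
  unfold aex
  omega

theorem MHyp.a_strict (h : MHyp p r I m E g) : StrictMono (aex p r I E) :=
  strictMono_nat_of_lt_succ fun j => by have := h.gap j; omega

theorem MHyp.a_pos (h : MHyp p r I m E g) (j : ℕ) : 1 ≤ aex p r I E j :=
  h.a0.trans (h.a_strict.monotone (Nat.zero_le j))

/-- support of the zone filters -/
theorem Del_low {a : ℕ → ℕ} (h1 : ∀ j, 1 ≤ a j) (hm : StrictMono a) (j : ℕ) :
    Low (Tp (a j)) (Del a (j + 1)) := by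
  have h2 : Low (Tp (a j)) (kap (a (j + 1))) :=
    (low_kap (h1 _)).anti (Tp_anti (hm (Nat.lt_succ_self j)).le)
  exact (low_kap (h1 j)).sub h2

theorem Del_high {a : ℕ → ℕ} (h1 : ∀ j, 1 ≤ a j) (hm : StrictMono a) (j : ℕ) :
    High (Tp (a j + 1)) (Del a j) := by
  cases j with
  | zero => exact high_one_sub_kap (h1 0)
  | succ j =>
    have h2 := high_one_sub_kap (h1 (j + 1))
    have h3 : High (Tp (a (j + 1) + 1)) (1 - kap (a j)) :=
      (high_one_sub_kap (h1 j)).anti (Tp_anti (by have := hm (Nat.lt_add_one j); omega))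
    have : Del a (j + 1) = (1 - kap (a (j + 1))) - (1 - kap (a j)) := by
      show kap (a j) - kap (a (j + 1)) = _
      ring
    rw [this]
    exact h2.sub h3

theorem Del_sum (a : ℕ → ℕ) (n : ℕ) :
    ∑ j ∈ Finset.range (n + 1), Del a j = 1 - kap (a n) := by
  induction n with
  | zero => simp [Del]
  | succ n ih =>
    rw [Finset.sum_range_succ, ih]
    show 1 - kap (a n) + (kap (a n) - kap (a (n + 1))) = _
    ring

/-- the stage symbols -/
def Ph (p r I m : ℕ → ℕ) (k : ℕ) : W := Phi (p k) (2 * r k) (I k) (m k)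

/-- stages before `k` are pure shifts on the low frequencies -/
theorem ev_prod_low (h : MHyp p r I m E g) {k : ℕ} {t : ℝ}
    (ht : ∀ i, i < k → |t| ≤ Tp (E i)) :
    ev t (∏ i ∈ Finset.range k, Ph p r I m i) = ev t (mono (lamb m k : ℤ)) := by
  induction k with
  | zero => simp [lamb, mono_zero, ev_one']
  | succ k ih =>
    rw [Finset.prod_range_succ, ev_mul', ih fun i hi => ht i (by omega)]
    have h1 : ev t (Ph p r I m k) = ev t (mono ((2 ^ m k : ℕ) : ℤ)) := by
      refine ev_Phi_in (h.p_pos k) (h.pm k) ((ht k (Nat.lt_succ_self k)).trans (Tp_anti ?_))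
      have h2 := h.pE k
      have h3 := h.r2 k
      have : (2 * I k + 1) * r k = I k * (2 * r k) + r k := by ring
      omega
    rw [h1, ← ev_mul', ← mono_add]
    congr 2
    unfold lamb
    rw [Finset.sum_range_succ]
    push_cast
    ring

theorem ev_prod_high (h : MHyp p r I m E g) {k : ℕ} {t : ℝ} (ht : |t| ≤ Real.pi)
    (h1 : Tp (E k + 1) ≤ |t|) (n : ℕ) :
    ev t (∏ i ∈ Finset.range n, Ph p r I m (k + 1 + i)) = 1 := by
  rw [ev_prod]
  refine Finset.prod_eq_one fun i _ => ?_
  refine ev_Phi_out (h.p_pos _) (h.pm _) ((Tp_anti ?_).trans h1) ht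
  have := h.Ep' (show k < k + 1 + i by omega)
  omega

theorem ev_prod_zone (h : MHyp p r I m E g) {K k : ℕ} (hk : k < K) {t : ℝ} (ht : |t| ≤ Real.pi)
    (h1 : ∀ i, i < k → |t| ≤ Tp (E i)) (h2 : Tp (E k + 1) ≤ |t|) :
    ev t (∏ i ∈ Finset.range K, Ph p r I m i) =
      ev t (mono (lamb m k : ℤ)) * ev t (Ph p r I m k) := by
  obtain ⟨n, rfl⟩ : ∃ n, K = (k + 1) + n := ⟨K - (k + 1), by omega⟩
  rw [Finset.prod_range_add, ev_mul', ev_prod_high h ht h2, mul_one, Finset.prod_range_succ,
    ev_mul', ev_prod_low h h1]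

/-- on every zone the product of the stage symbols is a shift times the zone symbol -/
theorem zone_eq (h : MHyp p r I m E g) {K : ℕ} {j : ℕ} (hj : (st I j).1 < K) (f : W) :
    (∏ i ∈ Finset.range K, Ph p r I m i) * (Del (aex p r I E) j * f) =
      mono (lamb m (st I j).1 : ℤ) * (Psi (p (st I j).1) (2 * r (st I j).1) (I (st I j).1)
        (m (st I j).1) (st I j).2 * (Del (aex p r I E) j * f)) := by
  set a := aex p r I E with ha
  have ha1 : ∀ j, 1 ≤ a j := h.a_pos
  have ham : StrictMono a := h.a_strict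
  refine ext_pi fun t ht => ?_
  rw [ev_mul', ev_mul' t (mono _), ev_mul' t (Psi _ _ _ _ _)]
  by_cases hz : ev t (Del a j * f) = 0
  · rw [hz]; ring
  have hD : ev t (Del a j) ≠ 0 := by
    intro h0; apply hz; rw [ev_mul', h0, zero_mul]
  have hlo : Tp (a j + 1) < |t| := by
    by_contra hcon
    push Not at hcon
    exact hD (Del_high ha1 ham j t hcon)
  rw [← mul_assoc]
  congr 1
  have hle := st_le I j
  have haj : a j ≤ E (st I j).1 := h.Aex_le hle
  have hE : Tp (E (st I j).1 + 1) ≤ |t| := (Tp_anti (by omega)).trans hlo.le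
  -- upper bound for `|t|`
  have hup : ∀ i, i < (st I j).1 → |t| ≤ Tp (E i) := by
    intro i hi
    obtain ⟨j', rfl⟩ : ∃ j', j = j' + 1 := by
      cases j with
      | zero => exact absurd hi (Nat.not_lt_zero _)
      | succ j' => exact ⟨j', rfl⟩
    have h3 : |t| < Tp (a j') := by
      by_contra hcon
      push Not at hcon
      exact hD (Del_low ha1 ham j' t ht hcon)
    refine h3.le.trans (Tp_anti ?_)
    have hle' := st_le I j'
    rcases st_succ I j' with ⟨_, hb⟩ | ⟨hc, hb⟩
    · rw [hb] at hi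
      have h4 := h.Ep' hi
      simp only at h4
      have h5 := h.le_Aex (st I j')
      have h6 : p (st I j').1 ≤ Aex p r I E (st I j') := (Nat.le_add_right _ _).trans h5
      show E i ≤ Aex p r I E (st I j')
      omega
    · rw [hb] at hi
      have h5 : Aex p r I E (st I j') = E (st I j').1 := by unfold Aex; rw [if_pos hc]
      show E i ≤ Aex p r I E (st I j')
      rw [h5]
      have := h.E_mono (show i ≤ (st I j').1 by simp only at hi; omega)
      omega
  rw [ev_prod_zone h hj ht hup hE]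
  congr 1
  -- the zone formula
  set k := (st I j).1 with hk
  set v := (st I j).2 with hv
  show ev t (Phi (p k) (2 * r k) (I k) (m k)) = _
  by_cases hv0 : v = 0
  · rw [hv0]
    unfold Psi
    rw [if_pos rfl]
    refine ev_Phi_cut (h.p_pos k) ht ?_
    refine (Tp_anti ?_).trans hlo.le
    have h3 : a j = p k + r k := by
      show Aex p r I E (st I j) = _
      unfold Aex
      rw [if_neg (fun h5 => by have := h.I1 k; rw [← hv, ← hk, hv0] at h5; omega), ← hk, ← hv, hv0]
      ring
    have h4 := h.r2 k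
    omega
  · unfold Psi
    rw [if_neg hv0]
    obtain ⟨j', rfl⟩ : ∃ j', j = j' + 1 := by
      cases j with
      | zero => exact absurd rfl hv0
      | succ j' => exact ⟨j', rfl⟩
    have h3 : |t| < Tp (a j') := by
      by_contra hcon
      push Not at hcon
      exact hD (Del_low ha1 ham j' t ht hcon)
    obtain ⟨hc, hb⟩ : (st I j').2 < I (st I j').1 ∧ st I (j' + 1) = ((st I j').1, (st I j').2 + 1) := by
      rcases st_succ I j' with h4 | ⟨_, hb⟩
      · exact h4
      · exfalso; apply hv0; rw [hv, hb]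
    have hk' : (st I j').1 = k := by rw [hk, hb]
    have hv' : (st I j').2 = v - 1 := by rw [hv, hb]; simp
    have haj' : a j' = p k + (2 * (v - 1) + 1) * r k := by
      show Aex p r I E (st I j') = _
      unfold Aex
      rw [if_neg (by omega), hk', hv']
    have hv1 : v - 1 + 1 = v := by omega
    have hvI : v - 1 < I k := by rw [← hk', ← hv']; exact hc
    have h4 := h.r2 k
    have key := ev_Phi_band (p := p k) (r := 2 * r k) (I := I k) (m := m k) (h.p_pos k) (h.pm k) hvI
      (t := t) ?_ ?_ ?_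
    · rw [key, hv1]
    · refine h3.trans_le (Tp_anti ?_)
      rw [haj']; exact Nat.le_add_right _ _
    · right
      refine h3.le.trans (Tp_anti ?_)
      rw [haj']
      have : (2 * (v - 1) + 1) * r k = (v - 1) * (2 * r k) + r k := by ring
      omega
    · by_cases hvI2 : v = I k
      · left; omega
      · right
        have h5 : a (j' + 1) = p k + (2 * v + 1) * r k := by
          show Aex p r I E (st I (j' + 1)) = _
          unfold Aex
          rw [if_neg (by rw [← hk, ← hv]; exact hvI2)]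
        refine (Tp_anti ?_).trans hlo.le
        rw [h5]
        have h6 : v - 1 + 2 = v + 1 := by omega
        rw [h6]
        have : (v + 1) * (2 * r k) = (2 * v + 1) * r k + r k := by ring
        omega

/-- low frequency exponents of the stages -/
def lexp (E : ℕ → ℕ) (k : ℕ) : ℕ := if k = 0 then 1 else E (k - 1) - 2

theorem MHyp.vecHyp (h : MHyp p r I m E g) (K : ℕ) :
    VecHyp K p (fun k => 2 * r k) I m (lexp E) (fun k => lamb m (k + 1)) (lamb m) where
  p1 := h.p_pos
  pm := h.pm
  sh := fun k => by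
    show lamb m k + 2 ^ m k ≤ lamb m (k + 1)
    unfold lamb
    rw [Finset.sum_range_succ]
  H := {
    ξpos := fun k => xs_pos _ _
    ξle := fun k v => xs_mono (Nat.zero_le _)
    xle := fun k v => xs_le_one _ _
    lpos := fun k => by
      unfold lexp
      split_ifs with hk
      · exact le_rfl
      · have := h.p_lt_E (k - 1); omega
    err := fun j k hjk hk => by
      have h1 := h.err j
      have h2 := h.E_mono (show j + 1 ≤ k - 1 by omega)
      have h3 : lexp E k = E (k - 1) - 2 := by unfold lexp; rw [if_neg (by omega)]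
      have h4 := h.p_lt_E (k - 1)
      have h5 : ((2 ^ m j : ℕ) : ℝ) / xs (I j) 0 = 2 ^ m j * (65 / 64 : ℝ) ^ I j := by
        unfold xs
        rw [Nat.sub_zero, div_eq_mul_inv, ← inv_pow]
        norm_num
      have h6 : (2 : ℝ) ^ E (j + 1) ≤ 2 ^ (lexp E k) * (1 / 2 : ℝ) ^ k * (16 * 2 ^ j) := by
        obtain ⟨d, hd⟩ : ∃ d, E (k - 1) = E (j + 1) + (k - 1 - (j + 1)) + d :=
          ⟨E (k - 1) - (E (j + 1) + (k - 1 - (j + 1))), by omega⟩
        have h7 : lexp E k + 2 + (j + 2) = E (j + 1) + k + d := by rw [h3]; omega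
        have h8 : (2 : ℝ) ^ (lexp E k) * (16 * 2 ^ j) = 2 ^ (E (j + 1)) * 2 ^ k * 2 ^ d := by
          rw [← pow_add, ← pow_add, ← h7]; ring
        have h9 : (2 : ℝ) ^ (lexp E k) * (1 / 2 : ℝ) ^ k * (16 * 2 ^ j) =
            (2 ^ (lexp E k) * (16 * 2 ^ j)) * (1 / 2 : ℝ) ^ k := by ring
        rw [h9, h8]
        have h10 : (2 : ℝ) ^ (E (j + 1)) * 2 ^ k * 2 ^ d * (1 / 2 : ℝ) ^ k =
            2 ^ (E (j + 1)) * 2 ^ d * ((2 : ℝ) ^ k * (1 / 2 : ℝ) ^ k) := by ring
        rw [h10, ← mul_pow]
        norm_num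
        exact one_le_pow₀ (by norm_num)
      have h11 : (0 : ℝ) < 16 * 2 ^ j := by positivity
      have h12 : 160 * ((I j + 1 : ℕ) : ℝ) * ((lamb m (j + 1) : ℝ) + ((2 ^ m j : ℕ) : ℝ) / xs (I j) 0) *
          (16 * 2 ^ j) ≤ 2 ^ (lexp E k) * (1 / 2 : ℝ) ^ k * (16 * 2 ^ j) := by
        refine le_trans (le_of_eq ?_) (h1.trans h6)
        rw [h5]; push_cast; ring
      exact le_of_mul_le_mul_right h12 h11 }

/-- even and odd terms -/
theorem sum_even_odd (F : ℕ → W) (n : ℕ) :
    ∑ j ∈ Finset.range (2 * n), F j =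
      ∑ i ∈ Finset.range n, F (2 * i) + ∑ i ∈ Finset.range n, F (2 * i + 1) := by
  induction n with
  | zero => simp
  | succ n ih =>
    rw [show 2 * (n + 1) = 2 * n + 1 + 1 by ring, Finset.sum_range_succ, Finset.sum_range_succ, ih,
      Finset.sum_range_succ, Finset.sum_range_succ]
    abel

/-- `stepS` for a sequence with supports in consecutive zones -/
theorem stepS2 {a : ℕ → ℕ} (ha : ∀ j, a j + 6 ≤ a (j + 1)) (h : ℕ → W) (n : ℕ)
    (hH : ∀ j, High (Tp (a j + 1)) (h j)) (hL : ∀ j, Low (Tp (a j)) (h (j + 1))) :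
    n4 (∑ j ∈ Finset.range n, h j) ≤
      2 * Real.sqrt (400 * n2 (∑ j ∈ Finset.range n, psq (h j))) := by
  set Q := n2 (∑ j ∈ Finset.range n, psq (h j)) with hQ
  let F : ℕ → W := fun j => if j < n then h j else 0
  have hF : ∀ j, F j = if j < n then h j else 0 := fun _ => rfl
  have hsum : ∑ j ∈ Finset.range n, h j = ∑ j ∈ Finset.range (2 * n), F j := by
    rw [two_mul, Finset.sum_range_add]
    have h1 : ∑ j ∈ Finset.range n, F (n + j) = 0 :=
      Finset.sum_eq_zero fun j _ => by rw [hF, if_neg (by omega)]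
    rw [h1, add_zero]
    exact Finset.sum_congr rfl fun j hj => by rw [hF, if_pos (Finset.mem_range.1 hj)]
  have hpsum : ∑ j ∈ Finset.range n, psq (h j) = ∑ j ∈ Finset.range (2 * n), psq (F j) := by
    rw [two_mul, Finset.sum_range_add]
    have h1 : ∑ j ∈ Finset.range n, psq (F (n + j)) = 0 :=
      Finset.sum_eq_zero fun j _ => by rw [hF, if_neg (by omega), psq_zero]
    rw [h1, add_zero]
    exact Finset.sum_congr rfl fun j hj => by rw [hF, if_pos (Finset.mem_range.1 hj)]
  have hFH : ∀ j, High (Tp (a j + 1)) (F j) := fun j => by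
    rw [hF]; split_ifs
    · exact hH j
    · exact high_zero _
  have hFL : ∀ j, Low (Tp (a j)) (F (j + 1)) := fun j => by
    rw [hF]; split_ifs
    · exact hL j
    · exact low_zero _
  have hQ2 : Q = n2 (∑ i ∈ Finset.range n, psq (F (2 * i)) +
      ∑ i ∈ Finset.range n, psq (F (2 * i + 1))) := by
    rw [hQ, hpsum, sum_even_odd (fun j => psq (F j))]
  have he : n4 (∑ i ∈ Finset.range n, F (2 * i)) ^ 2 ≤ 400 * Q := by
    have h1 := stepS n (fun i => a (2 * i)) (fun i => by
      have h2 := ha (2 * i); have h3 := ha (2 * i + 1)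
      show a (2 * i) + 6 ≤ a (2 * (i + 1))
      rw [show 2 * (i + 1) = 2 * i + 1 + 1 by ring]; omega) (fun i => F (2 * i))
      (fun i _ => hFH _) (fun i _ => by
        show Low (Tp (a (2 * i) + 6)) (F (2 * (i + 1)))
        rw [show 2 * (i + 1) = 2 * i + 1 + 1 by ring]
        exact (hFL (2 * i + 1)).anti (Tp_anti (ha (2 * i))))
    refine h1.trans ?_
    refine mul_le_mul_of_nonneg_left ?_ (by norm_num)
    rw [hQ2]
    refine n2_le_of_dom (Pos.sum fun i _ => pos_psq _) ?_
    unfold Dom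
    rw [add_sub_cancel_left]
    exact Pos.sum fun i _ => pos_psq _
  have ho : n4 (∑ i ∈ Finset.range n, F (2 * i + 1)) ^ 2 ≤ 400 * Q := by
    have h1 := stepS n (fun i => a (2 * i + 1)) (fun i => by
      have h2 := ha (2 * i + 1); have h3 := ha (2 * i + 1 + 1)
      show a (2 * i + 1) + 6 ≤ a (2 * (i + 1) + 1)
      rw [show 2 * (i + 1) + 1 = 2 * i + 1 + 1 + 1 by ring]; omega) (fun i => F (2 * i + 1))
      (fun i _ => hFH _) (fun i _ => by
        show Low (Tp (a (2 * i + 1) + 6)) (F (2 * (i + 1) + 1))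
        rw [show 2 * (i + 1) + 1 = 2 * i + 1 + 1 + 1 by ring]
        exact (hFL (2 * i + 1 + 1)).anti (Tp_anti (ha (2 * i + 1))))
    refine h1.trans ?_
    refine mul_le_mul_of_nonneg_left ?_ (by norm_num)
    rw [hQ2]
    refine n2_le_of_dom (Pos.sum fun i _ => pos_psq _) ?_
    unfold Dom
    rw [add_sub_cancel_right]
    exact Pos.sum fun i _ => pos_psq _
  rw [hsum, sum_even_odd]
  have h1 := Real.le_sqrt_of_sq_le he
  have h2 := Real.le_sqrt_of_sq_le ho
  have h3 := n4_add_le (∑ i ∈ Finset.range n, F (2 * i)) (∑ i ∈ Finset.range n, F (2 * i + 1))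
  linarith

theorem Jn_mono (I : ℕ → ℕ) {j k : ℕ} (h : j ≤ k) : Jn I j ≤ Jn I k :=
  Finset.sum_le_sum_of_subset (Finset.range_mono h)

/-- **Products of stage symbols are uniformly bounded multipliers of `l^4`.** -/
theorem mthm (h : MHyp p r I m E g) (K : ℕ) (f : W) :
    n4 ((∏ i ∈ Finset.range K, Ph p r I m i) * f) ≤ 100003 * n4 f := by
  have hf0 := n4_nonneg f
  cases K with
  | zero =>
    rw [Finset.prod_range_zero, one_mul]
    linarith
  | succ K' =>
  set K := K' + 1 with hK
  set V := ∏ i ∈ Finset.range K, Ph p r I m i with hV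
  set a := aex p r I E with ha
  have ha1 : ∀ j, 1 ≤ a j := h.a_pos
  have ham : StrictMono a := h.a_strict
  set n' := Jn I K' + I K' with hn'
  have hn : Jn I K = n' + 1 := by rw [hK, Jn_succ]; omega
  have hEk : ∀ k, a (Jn I k + I k) = E k := by
    intro k
    show Aex p r I E (st I (Jn I k + I k)) = _
    rw [st_Jn I k (I k) le_rfl]
    unfold Aex
    rw [if_pos rfl]
  have ha6 : ∀ j, a j + 6 ≤ a (j + 1) := fun j => by
    have h1 := h.gap j; have h2 := h.g1 (st I j).1
    have : aex p r I E j + 6 ≤ aex p r I E (j + 1) := by omega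
    exact this
  -- decomposition
  have hdec : f = ∑ j ∈ Finset.range (n' + 1), Del a j * f + kap (a n') * f := by
    rw [← Finset.sum_mul, Del_sum]
    ring
  have hlast : V * (kap (a n') * f) = mono (lamb m K : ℤ) * (kap (a n') * f) := by
    refine ext_pi fun t ht => ?_
    rw [ev_mul', ev_mul' t (mono _), ev_mul']
    by_cases hz : Tp (a n') ≤ |t|
    · rw [ev_kap_zero (ha1 _) ht hz]; ring
    · push Not at hz
      rw [hV, ev_prod_low h fun i hi => hz.le.trans (Tp_anti ?_)]
      rw [hn', hEk]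
      have := h.E_mono (show i ≤ K' by omega)
      omega
  have hVf : V * f = ∑ j ∈ Finset.range (n' + 1), V * (Del a j * f) +
      mono (lamb m K : ℤ) * (kap (a n') * f) := by
    rw [← hlast, ← Finset.mul_sum, ← mul_add, ← hdec]
  have hlastn : n4 (mono (lamb m K : ℤ) * (kap (a n') * f)) ≤ 3 * n4 f := by
    rw [n4_mono_mul]
    exact (n4_mul_le _ _).trans (mul_le_mul_of_nonneg_right (norm_kap_le (ha1 _)) hf0)
  -- square function of the pieces
  have hA : n2 (∑ j ∈ Finset.range (n' + 1), psq (Del a j * f)) ≤ 2200 * n4 f ^ 2 := by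
    refine stepA_aux (fun n e he h1 psi hpsi => ddK n e he h1 psi hpsi) (fun p hp => adj_Kp hp) a
      (fun j => g (st I j).1) (n' + 1) (ha1 0) (fun j => h.gap j) ?_ f
    rw [← hn, sum_JnR]
    refine le_trans (le_of_eq ?_) (h.sg K)
    refine Finset.sum_congr rfl fun k _ => ?_
    have : ∀ v ∈ Finset.range (I k + 1), (1 / 2 : ℝ) ^ g (st I (Jn I k + v)).1 = (1 / 2 : ℝ) ^ g k := by
      intro v hv
      rw [st_Jn I k v (by have := Finset.mem_range.1 hv; omega)]
    rw [Finset.sum_congr rfl this, Finset.sum_const, Finset.card_range, nsmul_eq_mul]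
    push_cast; ring
  have hB : n2 (∑ j ∈ Finset.range (n' + 1), psq (V * (Del a j * f))) ≤
      2800 * n2 (∑ j ∈ Finset.range (n' + 1), psq (Del a j * f)) := by
    rw [← hn, sum_Jn, sum_Jn]
    have h1 := vec (h.vecHyp K) (fun k v => Del a (Jn I k + v) * f) ?_
    · refine le_trans (le_of_eq ?_) h1
      congr 1
      unfold dsum
      refine Finset.sum_congr rfl fun k hk => Finset.sum_congr rfl fun v hv => ?_
      have hv' : v ≤ I k := Nat.lt_succ_iff.1 (Finset.mem_range.1 hv)
      have hst := st_Jn I k v hv'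
      have h2 := zone_eq h (K := K) (j := Jn I k + v) (by rw [hst]; exact Finset.mem_range.1 hk) f
      rw [hst] at h2
      exact congrArg psq h2
    · intro k hk2 hkK v hv
      have h2 : Jn I k = Jn I (k - 1) + I (k - 1) + 1 := by
        have := Jn_succ I (k - 1)
        rw [show k - 1 + 1 = k by omega] at this
        omega
      have h3 : Jn I k + v = (Jn I (k - 1) + I (k - 1) + v) + 1 := by omega
      rw [h3]
      refine ((Del_low ha1 ham _).mul_right f).anti (Tp_anti ?_)
      have h4 : a (Jn I (k - 1) + I (k - 1)) ≤ a (Jn I (k - 1) + I (k - 1) + v) :=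
        ham.monotone (Nat.le_add_right _ _)
      rw [hEk] at h4
      have h5 : lexp E k = E (k - 1) - 2 := by unfold lexp; rw [if_neg (by omega)]
      have h6 := h.p_lt_E (k - 1)
      omega
  have hC := stepS2 ha6 (fun j => V * (Del a j * f)) (n' + 1)
    (fun j => ((Del_high ha1 ham j).mul_right f).mul_left V)
    (fun j => ((Del_low ha1 ham j).mul_right f).mul_left V)
  have hD : Real.sqrt (400 * n2 (∑ j ∈ Finset.range (n' + 1), psq (V * (Del a j * f)))) ≤
      50000 * n4 f := by
    rw [Real.sqrt_le_left (by positivity)]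
    nlinarith [sq_nonneg (n4 f)]
  rw [hVf]
  refine (n4_add_le _ _).trans ?_
  linarith

end

end Pool.Agent.H47.Vin
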