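import Pool.Agent.H27.Vin.HM
import Pool.Agent.H47.Vin.Glue
import Pool.Agent.H20.Vin.Xb

/-!
# The main theorem for the concrete parameters
-/

open scoped BigOperators ENNReal

namespace Pool.Agent.H47.Vin

open Pool.Agent.H36.Vin

theorem hM_P0 (i K : ℕ) (f : W) :
    n4 ((∏ j ∈ Finset.range K, P0.Ph (i + 1 + j)) * f) ≤ 100003 * n4 f :=
  hM_of P0 P0_p P0_r P0_n P0_m i K f

theorem main_P0 : ∃ T J : ℂ → ℂ, IsInner T ∧ IsInner J ∧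
    (∀ z ∈ Metric.ball (0 : ℂ) 1, T z = Complex.exp (-(1 + z) / (1 - z)) * J z) ∧
    (∀ p : ℝ≥0∞, 4 / 3 ≤ p → p ≤ 4 → MemMpA p T) ∧ ¬ IsBlaschke T :=
  P0.main_of (C := 100003) (by norm_num) hM_P0 P0.norm_ev_X_le

end Pool.Agent.H47.Vin
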