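import Pool.Agent.H27.Vin.B2
import Pool.Agent.H47.Vin.Sym

/-!
# Vector valued bounds for the band symbols
-/

open scoped BigOperators

noncomputable section

namespace Pool.Agent.H47.Vin

theorem dom_ab_mul (a b : W) : Dom (ab (a * b)) (ab a * ab b) := by
  rw [dom_iff]
  intro n
  have hp := (pos_ab a).mul (pos_ab b)
  refine ⟨?_, ?_⟩
  · have h1 : co (ab a * ab b) n = ((∑' m, ‖co a m‖ * ‖co b (n - m)‖ : ℝ) : ℂ) := by
      rw [co_mul, Complex.ofReal_tsum]
      refine tsum_congr fun m => ?_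
      rw [co_ab, co_ab]; push_cast; ring
    rw [h1, co_ab, Complex.ofReal_re, Complex.ofReal_re, co_mul]
    have hs : Summable fun m => ‖co a m * co b (n - m)‖ := (summable_shear a b).prod_factor n
    refine (norm_tsum_le_tsum_norm hs).trans (le_of_eq ?_)
    exact tsum_congr fun m => norm_mul _ _
  · rw [(hp n).2, co_ab, Complex.ofReal_im]

theorem Dom.mul {a b c d : W} (ha : Pos a) (hd : Pos d) (h1 : Dom a b) (h2 : Dom c d) :
    Dom (a * c) (b * d) :=
  (Dom.mul_left ha h2).trans (Dom.mul_right hd h1)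

theorem dom_ab_mul' {a b A B : W} (hB : Pos B) (h1 : Dom (ab a) A) (h2 : Dom (ab b) B) :
    Dom (ab (a * b)) (A * B) :=
  (dom_ab_mul a b).trans (Dom.mul (pos_ab a) hB h1 h2)

/-- dual Doob for an arbitrary finite family of Fejer kernels -/
theorem ddι {ι : Type*} (s : Finset ι) (e : ι → ℕ) (h1 : ∀ i ∈ s, 1 ≤ e i)
    (psi : ι → W) (hpsi : ∀ i, Pos (psi i)) :
    n2 (∑ i ∈ s, Fj (e i) * psi i) ≤ 5 * n2 (∑ i ∈ s, psi i) := by
  classical
  set N := s.sup e + 1 with hN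
  have hmaps : ∀ i ∈ s, e i - 1 ∈ Finset.range N := by
    intro i hi
    rw [Finset.mem_range]
    have := Finset.le_sup (f := e) hi
    omega
  have e1 : ∑ i ∈ s, Fj (e i) * psi i = ∑ j ∈ Finset.range N, Fj (j + 1) *
      ∑ i ∈ s.filter (fun i => e i - 1 = j), psi i := by
    rw [← Finset.sum_fiberwise_of_maps_to hmaps]
    refine Finset.sum_congr rfl fun j _ => ?_
    rw [Finset.mul_sum]
    refine Finset.sum_congr rfl fun i hi => ?_
    rw [Finset.mem_filter] at hi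
    have := h1 i hi.1
    rw [show e i = j + 1 by omega]
  have e2 : ∑ i ∈ s, psi i = ∑ j ∈ Finset.range N,
      ∑ i ∈ s.filter (fun i => e i - 1 = j), psi i :=
    (Finset.sum_fiberwise_of_maps_to hmaps _).symm
  rw [e1, e2]
  exact dd N (fun j => j + 1) (fun i j hij => Nat.succ_lt_succ hij) (fun j => by omega) _
    (fun j => Pos.sum fun i _ => hpsi i)

theorem ddKι {ι : Type*} (s : Finset ι) (e : ι → ℕ) (h1 : ∀ i ∈ s, 1 ≤ e i)
    (psi : ι → W) (hpsi : ∀ i, Pos (psi i)) :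
    n2 (∑ i ∈ s, Kp (e i) * psi i) ≤ 15 * n2 (∑ i ∈ s, psi i) := by
  have h2 : ∑ i ∈ s, Kp (e i) * psi i =
      (2 : ℂ) • ∑ j ∈ s, Fj (e j) * psi j + ∑ j ∈ s, Fj (e j + 1) * psi j := by
    rw [Finset.smul_sum, ← Finset.sum_add_distrib]
    refine Finset.sum_congr rfl fun j _ => ?_
    unfold Kp
    rw [add_mul, smul_mul_assoc]
  rw [h2]
  have h3 := ddι s e h1 psi hpsi
  have h4 := ddι s (fun j => e j + 1) (fun j _ => by omega) psi hpsi
  refine (n2_add_le _ _).trans ?_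
  rw [n2_smul]
  norm_num
  linarith

/-- hypotheses on the combs of all stages: `I k` bands at stage `k`, period `M k`, levels
`x k u ≥ ξ k`, shifts up to `Λ k`, the elements of stage `k` live on frequencies `≤ 2^(-l k)` -/
structure CombHyp (K : ℕ) (I M l Λ : ℕ → ℕ) (ξ : ℕ → ℝ) (x : ℕ → ℕ → ℝ) : Prop where
  ξpos : ∀ k, 0 < ξ k
  ξle : ∀ k u, ξ k ≤ x k u
  xle : ∀ k u, x k u ≤ 1
  lpos : ∀ k, 1 ≤ l k
  err : ∀ j k, j + 2 ≤ k → k < K →
      160 * I j * (Λ j + M j / ξ j) ≤ 2 ^ (l k) * (1 / 2 : ℝ) ^ k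

variable {K : ℕ} {I M l Λ : ℕ → ℕ} {ξ : ℕ → ℝ} {x : ℕ → ℕ → ℝ}

theorem CombHyp.xpos (H : CombHyp K I M l Λ ξ x) (k u : ℕ) : 0 < x k u :=
  (H.ξpos k).trans_le (H.ξle k u)

/-- double sums over all stages and bands -/
def dsum (K : ℕ) (I : ℕ → ℕ) (f : ℕ → ℕ → W) : W :=
  ∑ k ∈ Finset.range K, ∑ u ∈ Finset.range (I k), f k u

theorem dsum_add (f g : ℕ → ℕ → W) :
    dsum K I (fun k u => f k u + g k u) = dsum K I f + dsum K I g := by
  unfold dsum
  simp_rw [Finset.sum_add_distrib]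

theorem dsum_smul (c : ℂ) (f : ℕ → ℕ → W) :
    dsum K I (fun k u => c • f k u) = c • dsum K I f := by
  unfold dsum
  simp_rw [Finset.smul_sum]

theorem dsum_pos {f : ℕ → ℕ → W} (h : ∀ k u, Pos (f k u)) : Pos (dsum K I f) :=
  Pos.sum fun k _ => Pos.sum fun u _ => h k u

theorem dsum_dom {f g : ℕ → ℕ → W} (h : ∀ k u, Dom (f k u) (g k u)) :
    Dom (dsum K I f) (dsum K I g) :=
  Dom.sum fun k _ => Dom.sum fun u _ => h k u

/-- `comb_all` for a family whose elements are low frequency -/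
theorem comb_low (H : CombHyp K I M l Λ ξ x) (sh : ℕ → ℕ) (hsh : ∀ k, sh k ≤ Λ k)
    (psi : ℕ → ℕ → W) (hpsi : ∀ k u, Pos (psi k u))
    (hlow : ∀ k, 2 ≤ k → k < K → ∀ u < I k, Low (Tp (l k + 1)) (psi k u)) :
    n2 (dsum K I fun k u => mono (sh k : ℤ) * (Hc (M k) (x k u) * psi k u)) ≤
      20 * n2 (dsum K I psi) := by
  have h := comb_all K I M sh l ξ x psi H.ξpos H.ξle H.xle hpsi H.lpos
    (fun k hk hkK u hu => kap_mul_of_low (H.lpos k) (hlow k hk hkK u hu))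
    (fun j k hjk hk => by
      refine le_trans ?_ (H.err j k hjk hk)
      have h1 : (sh j : ℝ) ≤ Λ j := by exact_mod_cast hsh j
      have h2 : (0 : ℝ) ≤ 160 * I j := by positivity
      nlinarith)
  simp_rw [Finset.mul_sum] at h
  exact h

/-- combs and trapezoids together -/
theorem comb_kap (H : CombHyp K I M l Λ ξ x) (sh : ℕ → ℕ) (hsh : ∀ k, sh k ≤ Λ k)
    (e : ℕ → ℕ → ℕ) (he : ∀ k u, 1 ≤ e k u)
    (psi : ℕ → ℕ → W) (hpsi : ∀ k u, Pos (psi k u))
    (hlow : ∀ k, 2 ≤ k → k < K → ∀ u < I k, Low (Tp (l k + 1)) (psi k u)) :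
    n2 (dsum K I fun k u => mono (sh k : ℤ) *
      (Hc (M k) (x k u) * (Kp (e k u) * psi k u))) ≤ 300 * n2 (dsum K I psi) := by
  have h1 := comb_low H sh hsh (fun k u => Kp (e k u) * psi k u)
    (fun k u => (pos_Kp (he k u)).mul (hpsi k u))
    (fun k hk hkK u hu => (hlow k hk hkK u hu).mul_left _)
  have h2 := ddKι ((Finset.range K).sigma fun k => Finset.range (I k)) (fun i => e i.1 i.2)
    (fun i _ => he _ _) (fun i => psi i.1 i.2) (fun i => hpsi _ _)
  rw [Finset.sum_sigma, Finset.sum_sigma] at h2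
  have h3 : n2 (dsum K I fun k u => Kp (e k u) * psi k u) ≤ 15 * n2 (dsum K I psi) := h2
  linarith

theorem low_psq {q : ℕ} {f : W} (hf : Low (Tp (q + 2)) f) : Low (Tp (q + 1)) (psq f) := by
  have h1 : Tp (q + 2) = Tp (q + 1) / 2 := by
    have := Tp_add (q + 1) 1
    rw [this]; norm_num
  have h2 : Tp (q + 1) ≤ Real.pi := Tp_le_pi (by omega)
  have h3 := hf.psq (by rw [h1]; linarith)
  refine h3.anti ?_
  rw [h1]; linarith

/-- the Neumann inverses are bounded in the vector valued sense -/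
theorem neu (H : CombHyp K I M l Λ ξ x) (hM : ∀ k, M k ≤ Λ k)
    (e : ℕ → ℕ → ℕ) (he : ∀ k u, 1 ≤ e k u) (f : ℕ → ℕ → W)
    (hlow : ∀ k, 2 ≤ k → k < K → ∀ u < I k, Low (Tp (l k + 2)) (f k u)) :
    n2 (dsum K I fun k u => psq (nb (M k) (x k u) (kap (e k u)) * f k u)) ≤
      4 * n2 (dsum K I fun k u => psq (f k u)) := by
  set U : ℕ → ℕ → W := fun k u => nb (M k) (x k u) (kap (e k u)) * f k u with hU
  have hUeq : ∀ k u, U k u = f k u + (1 / 64 : ℂ) •
      (mono (M k : ℤ) * ((Gc (M k) (x k u) * kap (e k u)) * U k u)) := by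
    intro k u
    have h := congrArg (fun z => z * f k u) (nb_mul (M := M k) (H.xpos k u) (H.xle k u)
      (norm_kap_le (he k u)))
    simp only [one_mul] at h
    show nb (M k) (x k u) (kap (e k u)) * f k u = _
    nth_rewrite 2 [← h]
    rw [hU]
    simp only [mul_assoc, ← smul_mul_assoc, sub_mul, one_mul]
    ring
  have hdom : ∀ k u, Dom (psq (U k u)) (((2 : ℝ) : ℂ) • psq (f k u) +
      ((6 / 4096 : ℝ) : ℂ) • (mono (M k : ℤ) *
        (Hc (M k) (x k u) * (Kp (e k u) * psq (U k u))))) := by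
    intro k u
    nth_rewrite 1 [hUeq k u]
    refine (dom_psq_add _ _).trans ?_
    refine Dom.add (Dom.rfl' _) ?_
    rw [psq_smul, psq_mono_mul, smul_smul]
    have h1 : ((2 : ℝ) : ℂ) * ((‖(1 / 64 : ℂ)‖ ^ 2 : ℝ) : ℂ) = ((2 / 4096 : ℝ) : ℂ) := by
      have : ‖(1 / 64 : ℂ)‖ = 1 / 64 := by norm_num
      rw [this, ← Complex.ofReal_mul]; norm_num
    rw [h1]
    have hGk : ‖Gc (M k) (x k u) * kap (e k u)‖ ≤ 3 := by
      refine (norm_mul_le _ _).trans ?_
      have a1 := norm_Gc_le (M := M k) (H.xpos k u) (H.xle k u)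
      have a2 := norm_kap_le (he k u)
      nlinarith [norm_nonneg (kap (e k u)), norm_nonneg (Gc (M k) (x k u))]
    have h2 := dom_psq_mul' (dom_ab_mul' (pos_Kp (he k u)) (dom_ab_Gc (M := M k) (H.xpos k u) (H.xle k u))
      (dom_ab_kap (he k u))) (U k u)
    have hPos : Pos (Hc (M k) (x k u) * Kp (e k u) * psq (U k u)) :=
      ((pos_Hc (H.xpos k u) (H.xle k u)).mul (pos_Kp (he k u))).mul (pos_psq _)
    have h3 : Dom (psq ((Gc (M k) (x k u) * kap (e k u)) * U k u))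
        (((3 : ℝ) : ℂ) • (Hc (M k) (x k u) * Kp (e k u) * psq (U k u))) := by
      refine h2.trans ?_
      unfold Dom
      rw [← sub_smul, ← Complex.ofReal_sub]
      exact hPos.smul (by linarith)
    have h4 := (Dom.mul_left (pos_mono (M k : ℤ)) h3).smul (r := 2 / 4096) (by norm_num)
    have h5 : (((2 / 4096 : ℝ)) : ℂ) • (mono (M k : ℤ) * (((3 : ℝ) : ℂ) •
        (Hc (M k) (x k u) * Kp (e k u) * psq (U k u)))) = (((6 / 4096 : ℝ)) : ℂ) •
        (mono (M k : ℤ) * (Hc (M k) (x k u) * (Kp (e k u) * psq (U k u)))) := by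
      rw [mul_smul_comm, smul_smul, ← Complex.ofReal_mul, mul_assoc (Hc _ _)]
      norm_num
    rw [h5] at h4
    exact h4
  have hUlow : ∀ k, 2 ≤ k → k < K → ∀ u < I k, Low (Tp (l k + 1)) (psq (U k u)) :=
    fun k hk hkK u hu => low_psq ((hlow k hk hkK u hu).mul_left _)
  have h1 : n2 (dsum K I fun k u => psq (U k u)) ≤
      n2 (dsum K I fun k u => (((2 : ℝ) : ℂ) • psq (f k u) +
      ((6 / 4096 : ℝ) : ℂ) • (mono (M k : ℤ) *
        (Hc (M k) (x k u) * (Kp (e k u) * psq (U k u)))))) :=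
    n2_le_of_dom (dsum_pos fun k u => pos_psq _) (dsum_dom hdom)
  rw [dsum_add, dsum_smul, dsum_smul] at h1
  have h2 := comb_kap H M hM e he (fun k u => psq (U k u)) (fun k u => pos_psq _) hUlow
  have h3 := n2_add_le (((2 : ℝ) : ℂ) • dsum K I fun k u => psq (f k u))
    (((6 / 4096 : ℝ) : ℂ) • dsum K I fun k u => mono (M k : ℤ) *
        (Hc (M k) (x k u) * (Kp (e k u) * psq (U k u))))
  rw [n2_smul_real (by norm_num), n2_smul_real (by norm_num)] at h3
  have h4 := n2_nonneg (dsum K I fun k u => psq (f k u))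
  linarith

end Pool.Agent.H47.Vin
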