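import Pool.Agent.H27.Vin.Neu
import Pool.Agent.H40.Vin.Cut

/-!
# Vector valued bound for all zones of all stages
-/

open scoped BigOperators

noncomputable section

namespace Pool.Agent.H47.Vin

/-- zone symbols of one stage: zone `0` is the cut, zone `u+1` is the band `u` -/
def Psi (p r I m v : ℕ) : W :=
  if v = 0 then 1 - phi p m * Gc (2 ^ m) (xs I 0)
  else 1 - (1 - mono ((2 ^ m : ℕ) : ℤ)) * gb (2 ^ m) (xs I (v - 1)) (kap (p + v * r))

theorem dsum_ite (K : ℕ) (I : ℕ → ℕ) (hI : ∀ k, 1 ≤ I k) (g : ℕ → W) :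
    dsum K I (fun k v => if v = 0 then g k else 0) = ∑ k ∈ Finset.range K, g k := by
  unfold dsum
  refine Finset.sum_congr rfl fun k _ => ?_
  rw [Finset.sum_ite_eq']
  rw [if_pos (Finset.mem_range.2 (hI k))]

/-- the zero-th terms are dominated by the whole double sum -/
theorem dom_zeroth (K : ℕ) (I : ℕ → ℕ) (hI : ∀ k, 1 ≤ I k) {g : ℕ → ℕ → W}
    (hg : ∀ k v, Pos (g k v)) :
    Dom (∑ k ∈ Finset.range K, g k 0) (dsum K I g) := by
  unfold dsum
  refine Dom.sum fun k _ => ?_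
  unfold Dom
  rw [← Finset.add_sum_erase _ _ (Finset.mem_range.2 (hI k)), add_sub_cancel_left]
  exact Pos.sum fun v _ => hg k v

section

variable {K : ℕ} {p r I m l Λ lam : ℕ → ℕ}

/-- the hypotheses of the vector valued bound -/
structure VecHyp (K : ℕ) (p r I m l Λ lam : ℕ → ℕ) : Prop where
  p1 : ∀ k, 1 ≤ p k
  pm : ∀ k, p k ≤ m k
  H : CombHyp K (fun k => I k + 1) (fun k => 2 ^ m k) l Λ (fun k => xs (I k) 0)
    (fun k v => xs (I k) (v - 1))
  sh : ∀ k, lam k + 2 ^ m k ≤ Λ k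

theorem vec (h : VecHyp K p r I m l Λ lam) (f : ℕ → ℕ → W)
    (hlow : ∀ k, 2 ≤ k → k < K → ∀ v < I k + 1, Low (Tp (l k + 2)) (f k v)) :
    n2 (dsum K (fun k => I k + 1) fun k v =>
      psq (mono (lam k : ℤ) * (Psi (p k) (r k) (I k) (m k) v * f k v))) ≤
      2800 * n2 (dsum K (fun k => I k + 1) fun k v => psq (f k v)) := by
  set nz : ℕ → ℕ := fun k => I k + 1 with hnz
  set M : ℕ → ℕ := fun k => 2 ^ m k with hM
  set x : ℕ → ℕ → ℝ := fun k v => xs (I k) (v - 1) with hx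
  set e : ℕ → ℕ → ℕ := fun k v => p k + v * r k with he
  have he1 : ∀ k v, 1 ≤ e k v := fun k v => (h.p1 k).trans (Nat.le_add_right _ _)
  have H := h.H
  have x0 : ∀ k v, 0 < x k v := fun k v => xs_pos _ _
  have x1 : ∀ k v, x k v ≤ 1 := fun k v => xs_le_one _ _
  have hshl : ∀ k, lam k ≤ Λ k := fun k => (Nat.le_add_right _ _).trans (h.sh k)
  have hMl : ∀ k, M k ≤ Λ k := fun k => (Nat.le_add_left _ _).trans (h.sh k)
  set F := dsum K nz fun k v => psq (f k v) with hF
  have hlow2 : ∀ k, 2 ≤ k → k < K → ∀ v < nz k, Low (Tp (l k + 1)) (psq (f k v)) :=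
    fun k hk hkK v hv => low_psq (hlow k hk hkK v hv)
  -- part 0: pure shifts
  have H1 : CombHyp K nz M l Λ (fun k => xs (I k) 0) (fun _ _ => 1) :=
    ⟨H.ξpos, fun k _ => xs_le_one _ _, fun _ _ => le_rfl, H.lpos, H.err⟩
  have A0 : n2 (dsum K nz fun k v => mono (lam k : ℤ) * psq (f k v)) ≤ 20 * n2 F := by
    have := comb_low H1 lam hshl (fun k v => psq (f k v)) (fun k v => pos_psq _) hlow2
    simpa only [Hc_one, one_mul] using this
  -- combs
  have A1 := comb_low H lam hshl (fun k v => psq (f k v)) (fun k v => pos_psq _) hlow2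
  have A2 := comb_low H (fun k => lam k + 2 ^ m k) h.sh (fun k v => psq (f k v))
    (fun k v => pos_psq _) hlow2
  -- part A: the cuts
  set ek : ℕ → W := fun k => mono (lam k : ℤ) * (Gc (M k) (x k 0) * f k 0) with hek
  have hek1 : ∀ k, Dom (psq (ek k)) (mono (lam k : ℤ) * (Hc (M k) (x k 0) * psq (f k 0))) := by
    intro k
    show Dom (psq (mono (lam k : ℤ) * (Gc (M k) (x k 0) * f k 0))) _
    rw [psq_mono_mul]
    refine Dom.mul_left (pos_mono _) ?_
    refine (dom_psq_mul' (dom_ab_Gc (x0 k 0) (x1 k 0)) (f k 0)).trans ?_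
    have hP : Pos (Hc (M k) (x k 0) * psq (f k 0)) := (pos_Hc (x0 k 0) (x1 k 0)).mul (pos_psq _)
    have h1 := norm_Gc_le (M := M k) (x0 k 0) (x1 k 0)
    have h2 := hP.smul (r := 1 - ‖Gc (M k) (x k 0)‖) (by linarith)
    unfold Dom
    rw [Complex.ofReal_sub, sub_smul, Complex.ofReal_one, one_smul] at h2
    exact h2
  have hB1 : n2 (∑ k ∈ Finset.range K, psq (ek k)) ≤ 20 * n2 F := by
    refine le_trans (n2_le_of_dom (Pos.sum fun k _ => pos_psq _) ?_) A1
    refine (Dom.sum fun k _ => hek1 k).trans ?_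
    exact dom_zeroth K nz (fun k => Nat.le_add_left 1 _)
      (g := fun k v => mono (lam k : ℤ) * (Hc (M k) (x k v) * psq (f k v)))
      (fun k v => (pos_mono _).mul ((pos_Hc (x0 k v) (x1 k v)).mul (pos_psq _)))
  have hB2 : n2 (∑ k ∈ Finset.range K, psq (mono (2 ^ m k) * ek k)) ≤ 20 * n2 F := by
    refine le_trans (n2_le_of_dom (Pos.sum fun k _ => pos_psq _) ?_) A2
    refine Dom.trans ?_ (dom_zeroth K nz (fun k => Nat.le_add_left 1 _)
      (g := fun k v => mono ((lam k + 2 ^ m k : ℕ) : ℤ) * (Hc (M k) (x k v) * psq (f k v)))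
      (fun k v => (pos_mono _).mul ((pos_Hc (x0 k v) (x1 k v)).mul (pos_psq _))))
    refine Dom.sum fun k _ => ?_
    rw [psq_mono_mul]
    have h1 := Dom.mul_left (pos_mono (2 ^ m k)) (hek1 k)
    rw [← mul_assoc (mono (2 ^ m k)), ← mono_add] at h1
    have h2 : ((lam k + 2 ^ m k : ℕ) : ℤ) = 2 ^ m k + (lam k : ℤ) := by push_cast; ring
    rw [h2]
    exact h1
  have hcut : n2 (∑ k ∈ Finset.range K, psq (mono (lam k : ℤ) *
      (phi (p k) (m k) * Gc (2 ^ m k) (xs (I k) 0) * f k 0))) ≤ 960 * n2 F := by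
    have h1 := Pool.Agent.H40.Vin.cut (Finset.range K) p m (fun k _ => h.p1 k) (fun k _ => h.pm k) ek
    have h2 : ∀ k, phi (p k) (m k) * ek k = mono (lam k : ℤ) *
      (phi (p k) (m k) * Gc (2 ^ m k) (xs (I k) 0) * f k 0) := by
      intro k
      show phi (p k) (m k) * (mono (lam k : ℤ) * (Gc (2 ^ m k) (xs (I k) (0 - 1)) * f k 0)) = _
      rw [Nat.zero_sub]; ring
    simp_rw [h2] at h1
    linarith
  -- part B: the bands
  set U : ℕ → ℕ → W := fun k v => nb (M k) (x k v) (kap (e k v)) * f k v with hU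
  have hUn := neu H hMl e he1 f hlow
  have hUlow : ∀ k, 2 ≤ k → k < K → ∀ v < nz k, Low (Tp (l k + 1)) (psq (U k v)) :=
    fun k hk hkK v hv => low_psq ((hlow k hk hkK v hv).mul_left _)
  set Z : ℕ → ℕ → W := fun k v => ((1 + (1 / 64 : ℂ) • kap (e k v)) * Gc (M k) (x k v)) * U k v with hZ
  have hZdom : ∀ k v, Dom (psq (Z k v)) (((67 / 64 : ℝ) : ℂ) • (Hc (M k) (x k v) * psq (U k v)) +
      ((67 / 4096 : ℝ) : ℂ) • (Hc (M k) (x k v) * (Kp (e k v) * psq (U k v)))) := by
    intro k v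
    have hc64 : ((1 / 64 : ℝ) : ℂ) = (1 / 64 : ℂ) := by push_cast; ring
    have hPK : Pos (1 + (1 / 64 : ℂ) • Kp (e k v)) := by
      rw [← hc64]
      exact pos_one.add ((pos_Kp (he1 k v)).smul (by norm_num))
    have hab : Dom (ab (1 + (1 / 64 : ℂ) • kap (e k v))) (1 + (1 / 64 : ℂ) • Kp (e k v)) := by
      have h1 : Dom (ab (1 + (1 / 64 : ℂ) • kap (e k v))) (1 + (1 / 64 : ℂ) • ab (kap (e k v))) := by
        rw [dom_iff]
        intro n
        have hp : Pos (1 + (1 / 64 : ℂ) • ab (kap (e k v))) := by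
          rw [← hc64]
          exact pos_one.add ((pos_ab _).smul (by norm_num))
        refine ⟨?_, by rw [(hp n).2, co_ab, Complex.ofReal_im]⟩
        rw [co_ab, Complex.ofReal_re, co_add, co_add, co_smul, co_smul, co_ab, Complex.add_re,
          ← hc64, Complex.re_ofReal_mul, Complex.ofReal_re]
        refine (norm_add_le _ _).trans ?_
        rw [norm_mul, Complex.norm_real, Real.norm_of_nonneg (by norm_num)]
        refine add_le_add ?_ le_rfl
        rw [co_one]
        split_ifs <;> simp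
      refine h1.trans ?_
      rw [← hc64]
      exact (Dom.rfl' _).add ((dom_ab_kap (he1 k v)).smul (by norm_num))
    have hH : Pos (Hc (M k) (x k v)) := pos_Hc (x0 k v) (x1 k v)
    have h2 := dom_psq_mul' (dom_ab_mul' hH hab (dom_ab_Gc (M := M k) (x0 k v) (x1 k v))) (U k v)
    have hn : ‖(1 + (1 / 64 : ℂ) • kap (e k v)) * Gc (M k) (x k v)‖ ≤ 67 / 64 := by
      refine (norm_mul_le _ _).trans ?_
      have a1 := norm_Gc_le (M := M k) (x0 k v) (x1 k v)
      have a2 : ‖1 + (1 / 64 : ℂ) • kap (e k v)‖ ≤ 67 / 64 := by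
        refine (norm_add_le _ _).trans ?_
        rw [norm_smul, norm_one, ← hc64, Complex.norm_real, Real.norm_of_nonneg (by norm_num)]
        linarith [norm_kap_le (he1 k v)]
      nlinarith [norm_nonneg (1 + (1 / 64 : ℂ) • kap (e k v)), norm_nonneg (Gc (M k) (x k v))]
    have hPos : Pos ((1 + (1 / 64 : ℂ) • Kp (e k v)) * Hc (M k) (x k v) * psq (U k v)) :=
      (hPK.mul hH).mul (pos_psq _)
    have h3 := hPos.smul (r := 67 / 64 - ‖(1 + (1 / 64 : ℂ) • kap (e k v)) * Gc (M k) (x k v)‖)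
      (by linarith)
    rw [Complex.ofReal_sub, sub_smul] at h3
    have h4 : Dom (psq (Z k v)) (((67 / 64 : ℝ) : ℂ) •
      ((1 + (1 / 64 : ℂ) • Kp (e k v)) * Hc (M k) (x k v) * psq (U k v))) := h2.trans h3
    have h5 : (((67 / 64 : ℝ) : ℂ) •
      ((1 + (1 / 64 : ℂ) • Kp (e k v)) * Hc (M k) (x k v) * psq (U k v))) =
      ((67 / 64 : ℝ) : ℂ) • (Hc (M k) (x k v) * psq (U k v)) +
      ((67 / 4096 : ℝ) : ℂ) • (Hc (M k) (x k v) * (Kp (e k v) * psq (U k v))) := by
      rw [add_mul, add_mul, smul_add, one_mul, smul_mul_assoc, smul_mul_assoc, smul_smul, ← hc64,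
        ← Complex.ofReal_mul, mul_comm (Kp (e k v)), mul_assoc (Hc _ _)]
      norm_num
    rw [h5] at h4
    exact h4
  have hZbd : ∀ sh : ℕ → ℕ, (∀ k, sh k ≤ Λ k) →
      n2 (dsum K nz fun k v => psq (mono (sh k : ℤ) * Z k v)) ≤ 104 * n2 F := by
    intro sh hsh
    have b1 := comb_low H sh hsh (fun k v => psq (U k v)) (fun k v => pos_psq _) hUlow
    have b2 := comb_kap H sh hsh e he1 (fun k v => psq (U k v)) (fun k v => pos_psq _) hUlow
    have b3 : n2 (dsum K nz fun k v => psq (mono (sh k : ℤ) * Z k v)) ≤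
        n2 (dsum K nz fun k v => (((67 / 64 : ℝ) : ℂ) • (mono (sh k : ℤ) *
          (Hc (M k) (x k v) * psq (U k v))) + ((67 / 4096 : ℝ) : ℂ) • (mono (sh k : ℤ) *
          (Hc (M k) (x k v) * (Kp (e k v) * psq (U k v)))))) := by
      refine n2_le_of_dom (dsum_pos fun k v => pos_psq _) (dsum_dom fun k v => ?_)
      rw [psq_mono_mul]
      have b0 := Dom.mul_left (pos_mono (sh k : ℤ)) (hZdom k v)
      rw [mul_add, mul_smul_comm, mul_smul_comm] at b0
      exact b0
    rw [dsum_add, dsum_smul, dsum_smul] at b3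
    have b4 := n2_add_le (((67 / 64 : ℝ) : ℂ) • dsum K nz fun k v => (mono (sh k : ℤ) *
          (Hc (M k) (x k v) * psq (U k v)))) (((67 / 4096 : ℝ) : ℂ) • dsum K nz fun k v =>
          (mono (sh k : ℤ) * (Hc (M k) (x k v) * (Kp (e k v) * psq (U k v)))))
    rw [n2_smul_real (by norm_num), n2_smul_real (by norm_num)] at b4
    have b5 : 0 ≤ n2 F := n2_nonneg _
    linarith
  have hband : n2 (dsum K nz fun k v => psq (mono (lam k : ℤ) *
      ((1 - mono ((2 ^ m k : ℕ) : ℤ)) * gb (2 ^ m k) (xs (I k) (v - 1)) (kap (p k + v * r k)) *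
        f k v))) ≤ 416 * n2 F := by
    have c1 := hZbd lam hshl
    have c2 := hZbd (fun k => lam k + 2 ^ m k) h.sh
    have c3 : ∀ k v, Dom (psq (mono (lam k : ℤ) *
      ((1 - mono ((2 ^ m k : ℕ) : ℤ)) * gb (2 ^ m k) (xs (I k) (v - 1)) (kap (p k + v * r k)) *
        f k v))) (((2 : ℝ) : ℂ) • psq (mono (lam k : ℤ) * Z k v) +
          ((2 : ℝ) : ℂ) • psq (mono ((lam k + 2 ^ m k : ℕ) : ℤ) * Z k v)) := by
      intro k v
      have d1 : mono (lam k : ℤ) * ((1 - mono ((2 ^ m k : ℕ) : ℤ)) *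
          gb (2 ^ m k) (xs (I k) (v - 1)) (kap (p k + v * r k)) * f k v) =
          mono (lam k : ℤ) * Z k v + -(mono ((lam k + 2 ^ m k : ℕ) : ℤ) * Z k v) := by
        have d2 : gb (2 ^ m k) (xs (I k) (v - 1)) (kap (p k + v * r k)) * f k v = Z k v := by
          show _ = ((1 + (1 / 64 : ℂ) • kap (p k + v * r k)) * Gc (2 ^ m k) (xs (I k) (v - 1))) *
            (nb (2 ^ m k) (xs (I k) (v - 1)) (kap (p k + v * r k)) * f k v)
          unfold gb
          ring
        rw [mul_assoc (1 - mono ((2 ^ m k : ℕ) : ℤ)), d2, Nat.cast_add, mono_add]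
        ring
      rw [d1]
      have d3 := dom_psq_add (mono (lam k : ℤ) * Z k v) (-(mono ((lam k + 2 ^ m k : ℕ) : ℤ) * Z k v))
      rw [psq_neg] at d3
      exact d3
    have c4 := n2_le_of_dom (dsum_pos (K := K) (I := nz) fun k v => pos_psq _) (dsum_dom c3)
    rw [dsum_add, dsum_smul, dsum_smul] at c4
    have c5 := n2_add_le (((2 : ℝ) : ℂ) • dsum K nz fun k v => psq (mono (lam k : ℤ) * Z k v))
      (((2 : ℝ) : ℂ) • dsum K nz fun k v => psq (mono ((lam k + 2 ^ m k : ℕ) : ℤ) * Z k v))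
    rw [n2_smul_real (by norm_num), n2_smul_real (by norm_num)] at c5
    linarith
  -- total
  have htot : ∀ k v, Dom (psq (mono (lam k : ℤ) * (Psi (p k) (r k) (I k) (m k) v * f k v)))
      (((2 : ℝ) : ℂ) • (mono (lam k : ℤ) * psq (f k v)) + ((2 : ℝ) : ℂ) •
        ((if v = 0 then psq (mono (lam k : ℤ) *
      (phi (p k) (m k) * Gc (2 ^ m k) (xs (I k) 0) * f k 0)) else 0) +
        psq (mono (lam k : ℤ) *
      ((1 - mono ((2 ^ m k : ℕ) : ℤ)) * gb (2 ^ m k) (xs (I k) (v - 1)) (kap (p k + v * r k)) *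
        f k v)))) := by
    intro k v
    by_cases hv : v = 0
    · subst hv
      rw [if_pos rfl]
      have d1 : mono (lam k : ℤ) * (Psi (p k) (r k) (I k) (m k) 0 * f k 0) =
          mono (lam k : ℤ) * f k 0 + -(mono (lam k : ℤ) *
            (phi (p k) (m k) * Gc (2 ^ m k) (xs (I k) 0) * f k 0)) := by
        unfold Psi
        rw [if_pos rfl]; ring
      rw [d1]
      refine (dom_psq_add _ _).trans ?_
      rw [psq_neg, psq_mono_mul (lam k : ℤ) (f k 0), smul_add, ← add_assoc]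
      unfold Dom
      rw [add_sub_cancel_left]
      exact (pos_psq _).smul (by norm_num)
    · rw [if_neg hv, zero_add]
      have d1 : mono (lam k : ℤ) * (Psi (p k) (r k) (I k) (m k) v * f k v) =
          mono (lam k : ℤ) * f k v + -(mono (lam k : ℤ) *
            ((1 - mono ((2 ^ m k : ℕ) : ℤ)) *
              gb (2 ^ m k) (xs (I k) (v - 1)) (kap (p k + v * r k)) * f k v)) := by
        unfold Psi
        rw [if_neg hv]; ring
      rw [d1]
      have d3 := dom_psq_add (mono (lam k : ℤ) * f k v) (-(mono (lam k : ℤ) *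
            ((1 - mono ((2 ^ m k : ℕ) : ℤ)) *
              gb (2 ^ m k) (xs (I k) (v - 1)) (kap (p k + v * r k)) * f k v)))
      rw [psq_neg, psq_mono_mul (lam k : ℤ) (f k v)] at d3
      exact d3
  have h1 := n2_le_of_dom (dsum_pos (K := K) (I := nz) fun k v => pos_psq _) (dsum_dom htot)
  rw [dsum_add, dsum_smul, dsum_smul, dsum_add, dsum_ite K nz (fun k => Nat.le_add_left 1 _)] at h1
  have h2 := n2_add_le (((2 : ℝ) : ℂ) • dsum K nz fun k v => mono (lam k : ℤ) * psq (f k v))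
    (((2 : ℝ) : ℂ) • (∑ k ∈ Finset.range K, psq (mono (lam k : ℤ) *
      (phi (p k) (m k) * Gc (2 ^ m k) (xs (I k) 0) * f k 0)) +
      dsum K nz fun k v => psq (mono (lam k : ℤ) *
      ((1 - mono ((2 ^ m k : ℕ) : ℤ)) * gb (2 ^ m k) (xs (I k) (v - 1)) (kap (p k + v * r k)) *
        f k v))))
  have h3 := n2_add_le (∑ k ∈ Finset.range K, psq (mono (lam k : ℤ) *
      (phi (p k) (m k) * Gc (2 ^ m k) (xs (I k) 0) * f k 0)))
      (dsum K nz fun k v => psq (mono (lam k : ℤ) *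
      ((1 - mono ((2 ^ m k : ℕ) : ℤ)) * gb (2 ^ m k) (xs (I k) (v - 1)) (kap (p k + v * r k)) *
        f k v)))
  rw [n2_smul_real (by norm_num), n2_smul_real (by norm_num)] at h2
  have h4 : 0 ≤ n2 F := n2_nonneg _
  linarith

end

end Pool.Agent.H47.Vin
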